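import Pool.Agent.Lib_MP_a23b08_n2.YFwd2

/-!
# N2-ExchFwd: the theorem `exch_fwd` of part N
-/

set_option backward.defeqAttrib.useBackward true
set_option backward.isDefEq.respectTransparency false
set_option linter.unusedSectionVars false
set_option linter.unusedVariables false

open CategoryTheory CategoryTheory.Limits CategoryTheory.Triangulated CategoryTheory.Pretriangulated
open ZeroObject

universe v u

namespace EGr

variable {k : Type} [Field k] {D : Type u} [Category.{v} D] [Preadditive D] [HasZeroObject D] [HasShift D ℤ]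
  [∀ n : ℤ, (shiftFunctor D n).Additive] [Pretriangulated D] [IsTriangulated D] [Linear k D] {ι : Type}
  {S S' Y : ι → D} {i : ι}

section
variable {E V : D} {a : Y i ⟶ E} {b : E ⟶ V} {δ : V ⟶ (Y i)⟦(1 : ℤ)⟧}

/-- condition (Y) after the exchange -/
theorem FData.yd (hF : FData Y S' i a b δ) (hY : YD k S Y) (hC : CY3 k D) (hS : IsSMC S) (h : MutData S S' i) :
    YD k (newX S' i) (newY Y i V) := by
  constructor
  · rintro (_ | ⟨j, hj⟩) (_ | ⟨l, hl⟩) m hm
    · change hd k V (S' i) m = 0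
      rw [hF.hd_self hY hC h m]
      refine hY.zero i i m (Or.inr ?_)
      rcases hm with hm | hm
      · exact (hm rfl).elim
      · exact hm
    · change hd k V (S' l) m = 0
      exact (hz_iff_hd (k := k) hC.fin _ _ _).1 (hF.hz_ne hY hC hS h hl m)
    · change hd k (Y j) (S' i) m = 0
      exact (hz_iff_hd (k := k) hC.fin _ _ _).1 (hY.hz_mut hC h hj (Or.inl hj))
    · change hd k (Y j) (S' l) m = 0
      refine (hz_iff_hd (k := k) hC.fin _ _ _).1 (hY.hz_mut hC h hj ?_)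
      rcases hm with hm | hm
      · left
        rintro rfl
        exact hm rfl
      · exact Or.inr hm
  · rintro (_ | ⟨j, hj⟩) m hm
    · change hd k V (S' i) m = 1
      rw [hF.hd_self hY hC h m]
      exact hY.one i m hm
    · change hd k (Y j) (S' j) m = 1
      exact hY.hd_mut_one hC h hj hm

theorem FData.hd_self_zero (hF : FData Y S' i a b δ) (hY : YD k S Y) (hC : CY3 k D) (h : MutData S S' i) :
    hd k V (S' i) 0 = 1 := by
  rw [hF.hd_self hY hC h 0]
  exact hY.one i 0 (Or.inl rfl)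

theorem FData.hd_self_three (hF : FData Y S' i a b δ) (hY : YD k S Y) (hC : CY3 k D) (h : MutData S S' i) :
    hd k (S' i) V 0 = 1 := by
  rw [hC.hd_cy (S' i) V 0, show (3 : ℤ) - 0 = 3 by norm_num, hF.hd_self hY hC h 3]
  exact hY.one i 3 (Or.inr rfl)

/-- `V` is in the new heart -/
theorem FData.mem_heart (hF : FData Y S' i a b δ) (hY : YD k S Y) (hC : CY3 k D) (hS : IsSMC S) (h : MutData S S' i) :
    (h.isSMC hS).tstr.heart V := by
  have hz : ∀ (j : ι) (m : ℤ), m ≠ 0 → m ≠ 3 → HZ V (S' j) m := by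
    intro j m h0 h3
    by_cases hj : j = i
    · subst hj
      rw [hz_iff_hd (k := k) hC.fin, hF.hd_self hY hC h m]
      exact hY.zero j j m (Or.inr ⟨h0, h3⟩)
    · exact hF.hz_ne hY hC hS h hj m
  exact ⟨(h.isSMC hS).le_of_hz (fun j m hm => hz j m (by omega) (by omega)),
    (h.isSMC hS).ge_of_hz (fun j m hm => hC.hz (m := 3 - m) (by ring) (hz j (3 - m) (by omega) (by omega)))⟩

/-- the radical of `Y i`: fibre of `Y i ⟶ S i` -/
theorem rad_fact (hF : FData Y S' i a b δ) (hY : YD k S Y) (hC : CY3 k D) (hS : IsSMC S) (h : MutData S S' i)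
    (hr : HZ (S i) (S i) 1) (w : Y i ⟶ Y i) : ∃ (c : k) (w' : E ⟶ Y i), w = c • 𝟙 (Y i) + a ≫ w' := by
  have hYi := hY.mem_heart hC hS i
  have h1 : hd k (Y i) (S i) 0 = 1 := hY.one i 0 (Or.inl rfl)
  obtain ⟨q, hq⟩ := exists_ne_zero_of_hd0 (k := k) (X := Y i) (Z := S i) (by rw [h1]; exact one_ne_zero)
  obtain ⟨c, hc⟩ := exists_smul_of_hd0 (k := k) h1 hq (w ≫ q)
  obtain ⟨R, ρ, θ, hT⟩ := distinguished_cocone_triangle₁ q
  have hR : hS.tstr.heart R := hS.fibre i hYi q hq hT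
  -- `Hom(R, S i) = 0`
  have hR0 : ∀ f : R ⟶ S i, f = 0 := by
    intro f
    obtain ⟨g, hg⟩ := Triangle.yoneda_exact₂ _ (inv_rot_of_distTriang _ hT) f (by
      have h2 : ∀ r : (S i)⟦(-1 : ℤ)⟧ ⟶ S i, r = 0 := fun r => (hr.shift₁' (a := -1) (m := 0) (by norm_num)).zero r
      exact h2 _)
    obtain ⟨c', hc'⟩ := exists_smul_of_hd0 (k := k) h1 hq g
    have h3 : ρ ≫ q = 0 := comp_distTriang_mor_zero₁₂ _ hT
    rw [hg]
    change ρ ≫ g = 0
    rw [hc', Linear.comp_smul, h3, smul_zero]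
  have hR' : (h.isSMC hS).tstr.heart R := by
    refine ⟨(h.le_iff hS R).2 ⟨hR.1, hR0⟩, ?_⟩
    rw [ge_iff_orth]
    intro Z r hZ
    refine le_zero_of hS.tstr (a := -1) (b := 0) (by norm_num) ?_ hR.2 r
    have h3 : (h.isSMC hS).tstr.le 0 (Z⟦(-1 : ℤ)⟧) := (le_of_shift _ (n := 0 - 1) (by ring)).2 hZ
    exact (le_of_shift _ (n := -1) (by ring)).1 ((h.le_iff hS _).1 h3).1
  have h4 : (w - c • 𝟙 (Y i)) ≫ q = 0 := by
    rw [Preadditive.sub_comp, hc, Linear.smul_comp, Category.id_comp, sub_self]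
  obtain ⟨r, hr'⟩ := Triangle.coyoneda_exact₂ _ hT _ h4
  obtain ⟨r', hr''⟩ := hF.factor (hF.hz_one hY hC hS h hR') r
  refine ⟨c, r' ≫ ρ, ?_⟩
  rw [← Category.assoc, hr'']
  have h5 : w - c • 𝟙 (Y i) = r ≫ ρ := hr'
  rw [← h5]
  abel

/-- the quotient of `V` by its socle -/
theorem soc_fact (hF : FData Y S' i a b δ) (hY : YD k S Y) (hC : CY3 k D) (hS : IsSMC S) (h : MutData S S' i)
    (hr : HZ (S i) (S i) 1) (w : V ⟶ V) : ∃ (c : k) (w' : V ⟶ E), w = c • 𝟙 V + w' ≫ b := by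
  have hS' := h.isSMC hS
  have hV := hF.mem_heart hY hC hS h
  have h1 := hF.hd_self_three hY hC h
  obtain ⟨s, hs⟩ := exists_ne_zero_of_hd0 (k := k) (X := S' i) (Z := V) (by rw [h1]; exact one_ne_zero)
  obtain ⟨c, hc⟩ := exists_smul_of_hd0 (k := k) h1 hs (s ≫ w)
  obtain ⟨C, π, θ, hT⟩ := distinguished_cocone_triangle s
  have hCh : hS'.tstr.heart C := hS'.cofibre i hV s hs hT
  obtain ⟨e⟩ := h.iso
  have hr' : HZ (S' i) (S' i) 1 := by
    refine h.hz_self ?_
    exact (hr.shift₁' (a := 1) (m := 1 + 1) (by norm_num)).of_iso₁ e.symm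
  -- `Hom(S' i, C) = 0`
  have hC0 : ∀ f : S' i ⟶ C, f = 0 := by
    intro f
    obtain ⟨g, hg⟩ := Triangle.coyoneda_exact₃ _ hT f (hr' _)
    obtain ⟨c', hc'⟩ := exists_smul_of_hd0 (k := k) h1 hs g
    have h3 : s ≫ π = 0 := comp_distTriang_mor_zero₁₂ _ hT
    rw [hg]
    change g ≫ π = 0
    rw [hc', Linear.smul_comp, h3, smul_zero]
  -- `C` is in the old heart
  have hCt : hS.tstr.heart C := by
    refine ⟨((h.le_iff hS C).1 hCh.1).1, ?_⟩
    have hfin : IsFwdTilt hS.tstr (S i) hS'.tstr := h.isFwdTilt hS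
    -- `ge 0` of the old t-structure
    rw [ge_iff_orth]
    intro Z r hZ
    refine Filt.hom_zero ?_ hZ r
    rintro W ⟨j, m, hm, ⟨eW⟩⟩ u
    rw [Set.mem_Ici] at hm
    rw [← cancel_epi eW.inv, comp_zero]
    by_cases hjm : j = i ∧ m = 1
    · obtain ⟨rfl, rfl⟩ := hjm
      rw [← cancel_epi e.hom, hC0 (e.hom ≫ eW.inv ≫ u), comp_zero]
    · have h2 : hS'.tstr.le (-1) ((S j)⟦m⟧) := by
        have h3 : hS'.tstr.le 0 ((S j)⟦m - 1⟧) := by
          refine (h.le_iff hS _).2 ⟨(le_of_shift _ (n := m - 1) (by ring)).2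
            (le_mono' _ (by omega) (hS.mem_heart j).1), fun f => ?_⟩
          by_cases hm1 : m = 1
          · subst hm1
            have hji : j ≠ i := fun h0 => hjm ⟨h0, rfl⟩
            let e0 : (S j)⟦(1 : ℤ) - 1⟧ ≅ S j := (shiftFunctorZero D ℤ).app (S j)
            rw [← cancel_epi e0.inv, hS.hom_ne j i hji (e0.inv ≫ f), comp_zero]
          · exact le_zero_of _ (a := 0 - (m - 1)) (b := 0) (by omega)
              ((le_of_shift _ (n := 0) (by ring)).2 (hS.mem_heart j).1) (hS.mem_heart i).2 f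
        have h4 : hS'.tstr.le 0 (((S j)⟦m⟧)⟦(-1 : ℤ)⟧) :=
          (hS'.tstr.le 0).prop_of_iso ((shiftFunctorAdd' D m (-1) (m - 1) (by ring)).app (S j)) h3
        exact (le_of_shift _ (n := -1) (by ring)).1 h4
      exact le_zero_of _ (a := -1) (b := 0) (by norm_num) h2 hCh.2 _
  have h4 : s ≫ (w - c • 𝟙 V) = 0 := by
    rw [Preadditive.comp_sub, hc, Linear.comp_smul, Category.comp_id, sub_self]
  obtain ⟨r, hr''⟩ := Triangle.yoneda_exact₂ _ hT _ h4
  have h5 : w - c • 𝟙 V = π ≫ r := hr''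
  have h6 : r ≫ δ = 0 := hY.hz_heart' hC hS hCt (m := 1) (by norm_num) (by norm_num) _
  obtain ⟨r', hr3⟩ := Triangle.coyoneda_exact₃ _ hF.dist r h6
  refine ⟨c, π ≫ r', ?_⟩
  have h7 : r = r' ≫ b := hr3
  rw [Category.assoc, ← h7, ← h5]
  abel

/-- the exchange -/
theorem FData.exch (hF : FData Y S' i a b δ) (hY : YD k S Y) (hC : CY3 k D) (hS : IsSMC S) (h : MutData S S' i)
    (hr : HZ (S i) (S i) 1) : Exch k Y i (Y i) V a b δ where
  dist := hF.dist
  sum := filtY_sum (P := fun j => j ≠ i) (fun j j' hj hj' =>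
    hY.hz_heart hC hS (hY.mem_heart hC hS j') (by norm_num) (by norm_num)) hF.filt
  u1 j hj f := hF.factor (hF.hz_one hY hC hS h (hY.mem_heart' hC hS h hj)) f
  v1 j hj f := by
    have h1 : f ≫ δ = 0 := hY.hz_heart hC hS (hY.mem_heart hC hS i) (m := 1) (by norm_num) (by norm_num) _
    obtain ⟨g, hg⟩ := Triangle.coyoneda_exact₃ _ hF.dist f h1
    exact ⟨g, hg.symm⟩
  u2 w := rad_fact hF hY hC hS h hr w
  v2 w := soc_fact hF hY hC hS h hr w
  u3 w' hw := by
    have h1 : hd k (Y i) (S i) 0 = 1 := hY.one i 0 (Or.inl rfl)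
    obtain ⟨q, hq⟩ := exists_ne_zero_of_hd0 (k := k) (X := Y i) (Z := S i) (by rw [h1]; exact one_ne_zero)
    apply hq
    rw [← Category.id_comp q, ← hw, Category.assoc, (hF.hzE' hY hC 0).zero (w' ≫ q), comp_zero]
  v3 w' hw := by
    have h1 := hF.hd_self_zero hY hC h
    obtain ⟨q, hq⟩ := exists_ne_zero_of_hd0 (k := k) (X := V) (Z := S' i) (by rw [h1]; exact one_ne_zero)
    apply hq
    rw [← Category.id_comp q, ← hw, Category.assoc, (hF.hzE hY hC h (j := i) (m := 0) (Or.inl rfl)).zero (b ≫ q),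
      comp_zero]

end

/-- N2, forward -/
theorem exch_fwd {t t' : TStructure D} {X X' : ι → D} [IsAlgClosed k] [Fintype ι] (hN : NHyp k D) (hX : SMList t X)
    (hX' : SMList t' X') (κ : ι)
    (hM : MutData X X' κ) (hT : IsFwdTilt t (X κ) t') (hnd : NonDeg t) (hY : YD k X Y) :
    ∃ (V E : D) (a : Y κ ⟶ E) (b : E ⟶ V) (δ : V ⟶ (Y κ)⟦(1 : ℤ)⟧), Exch k Y κ (Y κ) V a b δ ∧
      YD k (newX X' κ) (newY Y κ V) := by
  have hC : CY3 k D := hN.toCY3
  have hS := hX.isSMC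
  obtain ⟨E, V, a, b, δ, hF⟩ := exists_fdata hY hC hS hM
  exact ⟨V, E, a, b, δ, hF.exch hY hC hS hM (hnd.1 _ (hX.simple κ)), hF.yd hY hC hS hM⟩

end EGr
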