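import Pool.Agent.Lib_MP_a23b08_n2.BUniv
import Pool.Agent.Lib_MP_a23b08_n2.ExchFwd

/-!
# N2-BBwd: the exchange of `Y i` under the backward tilt
-/

set_option backward.defeqAttrib.useBackward true
set_option backward.isDefEq.respectTransparency false
set_option linter.unusedSectionVars false
set_option linter.unusedVariables false

open CategoryTheory CategoryTheory.Limits CategoryTheory.Triangulated CategoryTheory.Pretriangulated
open ZeroObject

universe v u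

namespace EGr

variable {k : Type} [Field k] {D : Type u} [Category.{v} D] [Preadditive D] [HasZeroObject D] [HasShift D ℤ]
  [∀ n : ℤ, (shiftFunctor D n).Additive] [Pretriangulated D] [IsTriangulated D] [Linear k D] {ι : Type}
  {S S' Y : ι → D} {i : ι}

/-- objects of the heart without maps to `S i` are in the heart of the tilt -/
theorem MutData.heart_to_tilt (hS : IsSMC S) (h : MutData S S' i) {R : D} (hR : hS.tstr.heart R)
    (hR0 : ∀ f : R ⟶ S i, f = 0) : (h.isSMC hS).tstr.heart R := by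
  refine ⟨(h.le_iff hS R).2 ⟨hR.1, hR0⟩, ?_⟩
  rw [ge_iff_orth]
  intro Z r hZ
  refine le_zero_of hS.tstr (a := -1) (b := 0) (by norm_num) ?_ hR.2 r
  have h3 : (h.isSMC hS).tstr.le 0 (Z⟦(-1 : ℤ)⟧) := (le_of_shift _ (n := 0 - 1) (by ring)).2 hZ
  exact (le_of_shift _ (n := -1) (by ring)).1 ((h.le_iff hS _).1 h3).1

/-- objects of the heart of the tilt without maps from `S' i` are in the old heart -/
theorem MutData.heart_of_tilt (hS : IsSMC S) (h : MutData S S' i) {C : D} (hCh : (h.isSMC hS).tstr.heart C)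
    (hC0 : ∀ f : S' i ⟶ C, f = 0) : hS.tstr.heart C := by
  have hS' := h.isSMC hS
  obtain ⟨e⟩ := h.iso
  refine ⟨((h.le_iff hS C).1 hCh.1).1, ?_⟩
  rw [ge_iff_orth]
  intro Z r hZ
  refine Filt.hom_zero ?_ hZ r
  rintro W ⟨j, m, hm, ⟨eW⟩⟩ u
  rw [Set.mem_Ici] at hm
  rw [← cancel_epi eW.inv, comp_zero]
  by_cases hjm : j = i ∧ m = 1
  · obtain ⟨rfl, rfl⟩ := hjm
    rw [← cancel_epi e.hom, hC0 (e.hom ≫ eW.inv ≫ u), comp_zero]
  · have h2 : hS'.tstr.le (-1) ((S j)⟦m⟧) := by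
      have h3 : hS'.tstr.le 0 ((S j)⟦m - 1⟧) := by
        refine (h.le_iff hS _).2 ⟨(le_of_shift _ (n := m - 1) (by ring)).2
          (le_mono' _ (by omega) (hS.mem_heart j).1), fun f => ?_⟩
        by_cases hm1 : m = 1
        · subst hm1
          have hji : j ≠ i := fun h0 => hjm ⟨h0, rfl⟩
          let e0 : (S j)⟦(1 : ℤ) - 1⟧ ≅ S j := (shiftFunctorZero D ℤ).app (S j)
          rw [← cancel_epi e0.inv, hS.hom_ne j i hji (e0.inv ≫ f), comp_zero]
        · exact le_zero_of _ (a := 0 - (m - 1)) (b := 0) (by omega)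
            ((le_of_shift _ (n := 0) (by ring)).2 (hS.mem_heart j).1) (hS.mem_heart i).2 f
      have h4 : hS'.tstr.le 0 (((S j)⟦m⟧)⟦(-1 : ℤ)⟧) :=
        (hS'.tstr.le 0).prop_of_iso ((shiftFunctorAdd' D m (-1) (m - 1) (by ring)).app (S j)) h3
      exact (le_of_shift _ (n := -1) (by ring)).1 h4
    exact le_zero_of _ (a := -1) (b := 0) (by norm_num) h2 hCh.2 _

section
variable {U E : D} {a : U ⟶ E} {b : E ⟶ Y i} {δ : Y i ⟶ U⟦(1 : ℤ)⟧}

theorem BData.hzE (hB : BData Y S i a b δ) (hY : YD k S' Y) (hC : CY3 k D) (h : MutData S S' i) {j : ι} {m : ℤ}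
    (hm : j = i ∨ (m ≠ 0 ∧ m ≠ 3)) : HZ E (S j) m :=
  filtY_hz hB.filt (fun l hl => hY.hz_mutB hC h hl (by
    rcases hm with hm | hm
    · exact Or.inl (by rw [hm]; exact hl)
    · exact Or.inr hm))

theorem BData.hzE' (hB : BData Y S i a b δ) (hY : YD k S' Y) (hC : CY3 k D) (m : ℤ) : HZ E (S' i) m :=
  filtY_hz hB.filt (fun l hl => hY.hz hC (Or.inl hl))

/-- `Hom(U, S i⟦m⟧)` -/
theorem BData.hd_self (hB : BData Y S i a b δ) (hY : YD k S' Y) (hC : CY3 k D) (h : MutData S S' i) (m : ℤ) :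
    hd k U (S i) m = hd k (Y i) (S' i) m := by
  obtain ⟨e⟩ := h.iso
  have hrot : Triangle.mk b δ (-a⟦(1 : ℤ)⟧') ∈ distTriang D := rot_of_distTriang _ hB.dist
  rw [hd_congr_right (k := k) e, hd_shift_right (Y i) (S i) 1 m (m + 1) (by ring),
    hd_eq_CB (k := k) hrot hC.fin (hB.hzE hY hC h (Or.inl rfl)) (hB.hzE hY hC h (Or.inl rfl))]
  exact (hC.hd_shift_left U (S i) 1 (m + 1) m (by ring)).symm

/-- `Hom(X, U⟦1⟧) = 0` for `X` in the old heart -/
theorem BData.hz_one (hB : BData Y S i a b δ) (hY : YD k S' Y) (hC : CY3 k D) (hS : IsSMC S) (h : MutData S S' i) {X : D}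
    (hX : hS.tstr.heart X) : HZ X U 1 := by
  refine hz_filt₁ (heart_filt_single _ hX) ?_
  rintro Z ⟨j, ⟨e⟩⟩
  by_cases hj : j = i
  · subst hj
    refine HZ.of_iso₁ e.symm (hC.hz (m := 2) (by norm_num) ?_)
    rw [hz_iff_hd (k := k) hC.fin, hB.hd_self hY hC h 2]
    exact hY.zero j j 2 (Or.inr ⟨by norm_num, by norm_num⟩)
  · exact (hB.u1 j hj).of_iso₁ e.symm

/-- maps `X ⟶ Y i`, `X` in the old heart, factor through `b` -/
theorem BData.factor (hB : BData Y S i a b δ) {X : D} (hX : HZ X U 1) (f : X ⟶ Y i) : ∃ f' : X ⟶ E, f' ≫ b = f := by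
  obtain ⟨g, hg⟩ := Triangle.coyoneda_exact₃ _ hB.dist f (hX _)
  exact ⟨g, hg.symm⟩

/-- the injectivity of `Hom(Y i, S l) ⟶ Hom(E, S l)` -/
theorem BData.inj (hB : BData Y S i a b δ) (hY : YD k S' Y) (hC : CY3 k D) (hS : IsSMC S) (h : MutData S S' i)
    {l : ι} (hl : l ≠ i) (ψ : Y i ⟶ S l) (hψ : b ≫ ψ = 0) : ψ = 0 := by
  obtain ⟨E', a', p, c', hT', hE'⟩ := h.tri l hl
  have hS' := h.isSMC hS
  have hSl := h.heart_neB hS hl
  have hYi := hY.mem_heart hC hS' i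
  have hYl := hY.mem_heart hC hS' l
  -- the map `π ≫ p : Y l ⟶ S' l ⟶ S l`
  obtain ⟨π, hπ⟩ := exists_ne_zero_of_hd0 (k := k) (X := Y l) (Z := S' l) (by
    have := hY.one l 0 (Or.inl rfl)
    change hd k (Y l) (S' l) 0 = 1 at this
    rw [this]; exact one_ne_zero)
  have hχ : π ≫ p ≠ 0 := by
    intro h0
    obtain ⟨w, hw⟩ := Triangle.coyoneda_exact₂ _ hT' π h0
    apply hπ
    have hw0 : w = 0 := hom_filt_isoTo hE' (fun f => (hY.hz_mutB hC h hl (Or.inl hl)).zero f) w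
    rw [hw, hw0]
    exact zero_comp
  -- the truncated cone of `ψ`
  obtain ⟨C, c, d, hT⟩ := distinguished_cocone_triangle ψ
  obtain ⟨K, Q, α, β, γ, hK, hQ, hKQ⟩ := cone_trunc hS'.tstr hT hYi hSl
  have hψc : ψ ≫ c = 0 := comp_distTriang_mor_zero₁₂ _ hT
  by_cases hρ : p ≫ c ≫ β = 0
  · -- `π ≫ p` lifts along `ψ`
    exfalso
    apply hχ
    have h1 : ((π ≫ p) ≫ c) ≫ β = 0 := by
      rw [Category.assoc, Category.assoc, hρ, comp_zero]
    obtain ⟨w, hw⟩ := Triangle.coyoneda_exact₂ _ hKQ _ h1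
    have hw0 : w = 0 := hY.hz_heart hC hS' hK (m := 1) (by norm_num) (by norm_num) w
    have h2 : (π ≫ p) ≫ c = 0 := by
      rw [hw, hw0]
      exact zero_comp
    obtain ⟨y, hy⟩ := Triangle.coyoneda_exact₂ _ hT _ h2
    obtain ⟨y', hy'⟩ := hB.factor (hB.hz_one hY hC hS h (hY.mem_heartB hC hS h hl)) y
    have h3 : π ≫ p = y ≫ ψ := hy
    rw [h3, ← hy', Category.assoc, hψ, comp_zero]
  · -- `c ≫ β` is a monomorphism
    have hm : MonoH hS'.tstr (c ≫ β) := by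
      refine monoH_of hS'.slist hSl hQ _ (fun j g hg => ?_)
      by_cases hj : j = i
      · subst hj
        exact hS.cl_single_hom_zero (by norm_num) h.mem_self (self_mem_cl S l) g
      · obtain ⟨g', hg'⟩ := h.descend hj hT' hE' g
        by_cases hjl : j = l
        · subst hjl
          rcases hS'.zero_or_iso j g' with h0 | h1
          · rw [hg', h0, zero_comp]
          · exfalso
            apply hρ
            rw [← cancel_epi g', ← Category.assoc, ← hg', hg, comp_zero]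
        · rw [hg', hS'.hom_ne j l hjl g', zero_comp]
    exact hm (Y i) hYi ψ (by rw [← Category.assoc, hψc, zero_comp])

/-- `Hom(Y i, S l⟦m⟧)`, degrees `0` and `3` -/
theorem hd_mut_selfB (hY : YD k S' Y) (hC : CY3 k D) (hS : IsSMC S) (h : MutData S S' i) {l : ι} (hl : l ≠ i) :
    hd k (Y i) (S l) 3 = hd k (Y i) (S l) 0 := by
  obtain ⟨E', a', p, c', hT', hE'⟩ := h.tri l hl
  obtain ⟨e⟩ := h.iso
  have hrot : Triangle.mk p c' (-a'⟦(1 : ℤ)⟧') ∈ distTriang D := rot_of_distTriang _ hT'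
  have hz : ∀ m : ℤ, HZ (S' l) (Y i) m := fun m => hY.hz' hC (Or.inl (Ne.symm hl))
  have hE1 : Filt (isoTo (S' i)) (E'⟦(1 : ℤ)⟧) := by
    refine Filt.mono ?_ (filt_isoTo_shift 1 hE')
    rintro Z ⟨eZ⟩
    exact ⟨eZ ≪≫ e.symm⟩
  rw [hC.hd_cy (Y i) (S l) 3, hC.hd_cy (Y i) (S l) 0, show (3 : ℤ) - 0 = 3 by norm_num,
    show (3 : ℤ) - 3 = 0 by norm_num, hd_eq_CB (k := k) hrot hC.fin (hz _) (hz _),
    hd_eq_CB (k := k) hrot hC.fin (hz _) (hz _)]
  exact hd_filt_self hY hC hE1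

/-- `Hom(E, S l⟦m⟧)`, degrees `0` and `3` -/
theorem hd_filtYB (hY : YD k S' Y) (hC : CY3 k D) (h : MutData S S' i) {l : ι} (hl : l ≠ i) {E : D}
    (hE : Filt (fun W => ∃ j, j ≠ i ∧ Nonempty (W ≅ Y j)) E) : hd k E (S l) 3 = hd k E (S l) 0 := by
  induction hE with
  | zero X hX =>
    have h1 : ∀ m : ℤ, hd k X (S l) m = 0 := fun m => (hz_iff_hd (k := k) hC.fin X (S l) m).1 (hz_zero₁ hX)
    rw [h1, h1]
  | ext A X B f g q hT hA hB ih =>
    obtain ⟨j, hj, ⟨e⟩⟩ := hB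
    have hAz : ∀ m : ℤ, m ≠ 0 → m ≠ 3 → HZ A (S l) m := fun m h0 h3 =>
      filtY_hz hA (fun j' hj' => hY.hz_mutB hC h hj' (Or.inr ⟨h0, h3⟩))
    have hBz : ∀ m : ℤ, m ≠ 0 → m ≠ 3 → HZ B (S l) m := fun m h0 h3 =>
      (hY.hz_mutB hC h hj (Or.inr ⟨h0, h3⟩)).of_iso₁ e.symm
    have hB1 : hd k B (S l) 3 = hd k B (S l) 0 := by
      rw [hd_congr_left (k := k) e, hd_congr_left (k := k) e]
      by_cases hjl : j = l
      · subst hjl
        rw [hY.hd_mutB_one hC h hj (Or.inr rfl), hY.hd_mutB_one hC h hj (Or.inl rfl)]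
      · rw [(hz_iff_hd (k := k) hC.fin _ _ _).1 (hY.hz_mutB hC h hj (m := 3) (Or.inl hjl)),
          (hz_iff_hd (k := k) hC.fin _ _ _).1 (hY.hz_mutB hC h hj (m := 0) (Or.inl hjl))]
    rw [hd_add (k := k) hT hC.fin (hAz _ (by norm_num) (by norm_num)) (hBz _ (by norm_num) (by norm_num)),
      hd_add (k := k) hT hC.fin (hAz _ (by norm_num) (by norm_num)) (hBz _ (by norm_num) (by norm_num)), ih, hB1]

/-- `Hom(U, S l⟦m⟧) = 0` for `l ≠ i` -/
theorem BData.hz_ne (hB : BData Y S i a b δ) (hY : YD k S' Y) (hC : CY3 k D) (hS : IsSMC S) (h : MutData S S' i)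
    {l : ι} (hl : l ≠ i) (m : ℤ) : HZ U (S l) m := by
  have hS' := h.isSMC hS
  have hSl := h.heart_neB hS hl
  have hYz : ∀ p : ℤ, p ≠ 0 → p ≠ 3 → HZ (Y i) (S l) p := fun p h0 h3 => hY.hz_heart hC hS' hSl h0 h3
  -- generic degrees
  have gen : ∀ p : ℤ, p ≠ 0 → p ≠ 3 → p ≠ -1 → p ≠ 2 → HZ U (S l) p := by
    intro p h0 h3 h1 h4
    exact hz₁ hB.dist (hB.hzE hY hC h (Or.inr ⟨h0, h3⟩)) (hYz (p + 1) (by omega) (by omega))
  have h3 : HZ U (S l) 3 := hC.hz (m := 0) (by norm_num) (hB.u0 l hl)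
  have h2 : HZ U (S l) 2 := hC.hz (m := 1) (by norm_num) (hB.u1 l hl)
  have hn : HZ U (S l) (-1) := by
    refine HZ.unshift₁ (a := 1) (m := 0) (HZ.of_zero (fun u => ?_)) (by norm_num)
    have hrot : Triangle.mk b δ (-a⟦(1 : ℤ)⟧') ∈ distTriang D := rot_of_distTriang _ hB.dist
    have hbδ : b ≫ δ = 0 := comp_distTriang_mor_zero₁₂ _ hrot
    have hψ : δ ≫ u = 0 := hB.inj hY hC hS h hl (δ ≫ u) (by rw [← Category.assoc, hbδ, zero_comp])
    obtain ⟨w, hw⟩ := Triangle.yoneda_exact₃ _ hrot u hψ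
    have hEz : HZ E (S l) (-1) := hB.hzE hY hC h (Or.inr ⟨by norm_num, by norm_num⟩)
    have hw0 : w = 0 := (hEz.shift₁' (a := 1) (m := 0) (by norm_num)).zero w
    rw [hw, hw0]
    exact comp_zero
  by_cases hm3 : m = 3
  · subst hm3; exact h3
  by_cases hm2 : m = 2
  · subst hm2; exact h2
  by_cases hmn : m = -1
  · subst hmn; exact hn
  by_cases hm0 : m = 0
  · subst hm0
    rw [hz_iff_hd (k := k) hC.fin]
    have e3 := hd_add (k := k) hB.dist hC.fin (m := 3) (W := S l) h2 (hYz (3 + 1) (by norm_num) (by norm_num))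
    have e0 := hd_add (k := k) hB.dist hC.fin (m := 0) (W := S l) hn (hYz (0 + 1) (by norm_num) (by norm_num))
    have ev3 : hd k U (S l) 3 = 0 := (hz_iff_hd (k := k) hC.fin _ _ _).1 h3
    have e1 := hd_filtYB hY hC h hl hB.filt
    have e2 := hd_mut_selfB hY hC hS h hl
    omega
  · exact gen m hm0 hm3 hmn hm2

/-- condition (Y) after the exchange -/
theorem BData.yd (hB : BData Y S i a b δ) (hY : YD k S' Y) (hC : CY3 k D) (hS : IsSMC S) (h : MutData S S' i) :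
    YD k (newX S i) (newY Y i U) := by
  constructor
  · rintro (_ | ⟨j, hj⟩) (_ | ⟨l, hl⟩) m hm
    · change hd k U (S i) m = 0
      rw [hB.hd_self hY hC h m]
      refine hY.zero i i m (Or.inr ?_)
      rcases hm with hm | hm
      · exact (hm rfl).elim
      · exact hm
    · change hd k U (S l) m = 0
      exact (hz_iff_hd (k := k) hC.fin _ _ _).1 (hB.hz_ne hY hC hS h hl m)
    · change hd k (Y j) (S i) m = 0
      exact (hz_iff_hd (k := k) hC.fin _ _ _).1 (hY.hz_mutB hC h hj (Or.inl hj))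
    · change hd k (Y j) (S l) m = 0
      refine (hz_iff_hd (k := k) hC.fin _ _ _).1 (hY.hz_mutB hC h hj ?_)
      rcases hm with hm | hm
      · left
        rintro rfl
        exact hm rfl
      · exact Or.inr hm
  · rintro (_ | ⟨j, hj⟩) m hm
    · change hd k U (S i) m = 1
      rw [hB.hd_self hY hC h m]
      exact hY.one i m hm
    · change hd k (Y j) (S j) m = 1
      exact hY.hd_mutB_one hC h hj hm

theorem BData.hd_self_zero (hB : BData Y S i a b δ) (hY : YD k S' Y) (hC : CY3 k D) (h : MutData S S' i) :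
    hd k U (S i) 0 = 1 := by
  rw [hB.hd_self hY hC h 0]
  exact hY.one i 0 (Or.inl rfl)

/-- `U` is in the old heart -/
theorem BData.mem_heart (hB : BData Y S i a b δ) (hY : YD k S' Y) (hC : CY3 k D) (hS : IsSMC S) (h : MutData S S' i) :
    hS.tstr.heart U := by
  have hz : ∀ (j : ι) (m : ℤ), m ≠ 0 → m ≠ 3 → HZ U (S j) m := by
    intro j m h0 h3
    by_cases hj : j = i
    · subst hj
      rw [hz_iff_hd (k := k) hC.fin, hB.hd_self hY hC h m]
      exact hY.zero j j m (Or.inr ⟨h0, h3⟩)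
    · exact hB.hz_ne hY hC hS h hj m
  exact ⟨hS.le_of_hz (fun j m hm => hz j m (by omega) (by omega)),
    hS.ge_of_hz (fun j m hm => hC.hz (m := 3 - m) (by ring) (hz j (3 - m) (by omega) (by omega)))⟩

/-- `S' i` rigid gives `S i` rigid -/
theorem MutData.rigid_old (h : MutData S S' i) (hr : HZ (S' i) (S' i) 1) : HZ (S i) (S i) 1 :=
  h.hz_selfB (m := 1) (h.hz_selfB' (m := 1 - 1) (by
    rw [show (1 : ℤ) - 1 + 1 = 1 by norm_num]; exact hr))

/-- every endomorphism of `U` is a scalar plus a map through `a` -/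
theorem rad_factB (hB : BData Y S i a b δ) (hY : YD k S' Y) (hC : CY3 k D) (hS : IsSMC S) (h : MutData S S' i)
    (hr : HZ (S' i) (S' i) 1) (w : U ⟶ U) : ∃ (c : k) (w' : E ⟶ U), w = c • 𝟙 U + a ≫ w' := by
  have hU := hB.mem_heart hY hC hS h
  have hr0 := h.rigid_old hr
  have h1 := hB.hd_self_zero hY hC h
  obtain ⟨q, hq⟩ := exists_ne_zero_of_hd0 (k := k) (X := U) (Z := S i) (by rw [h1]; exact one_ne_zero)
  obtain ⟨c, hc⟩ := exists_smul_of_hd0 (k := k) h1 hq (w ≫ q)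
  obtain ⟨R, ρ, θ, hT⟩ := distinguished_cocone_triangle₁ q
  have hR : hS.tstr.heart R := hS.fibre i hU q hq hT
  -- `Hom(R, S i) = 0`
  have hR0 : ∀ f : R ⟶ S i, f = 0 := by
    intro f
    obtain ⟨g, hg⟩ := Triangle.yoneda_exact₂ _ (inv_rot_of_distTriang _ hT) f (by
      have h2 : ∀ r : (S i)⟦(-1 : ℤ)⟧ ⟶ S i, r = 0 := fun r => (hr0.shift₁' (a := -1) (m := 0) (by norm_num)).zero r
      exact h2 _)
    obtain ⟨c', hc'⟩ := exists_smul_of_hd0 (k := k) h1 hq g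
    have h3 : ρ ≫ q = 0 := comp_distTriang_mor_zero₁₂ _ hT
    rw [hg]
    change ρ ≫ g = 0
    rw [hc', Linear.comp_smul, h3, smul_zero]
  have hR' : (h.isSMC hS).tstr.heart R := h.heart_to_tilt hS hR hR0
  have h4 : (w - c • 𝟙 U) ≫ q = 0 := by
    rw [Preadditive.sub_comp, hc, Linear.smul_comp, Category.id_comp, sub_self]
  obtain ⟨r, hr'⟩ := Triangle.coyoneda_exact₂ _ hT _ h4
  obtain ⟨r', hr''⟩ := Triangle.yoneda_exact₂ _ (inv_rot_of_distTriang _ hB.dist) r (by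
    have h5 : HZ (Y i) R 1 := hY.hz_heart hC (h.isSMC hS) hR' (by norm_num) (by norm_num)
    have h6 : ∀ s : (Y i)⟦(-1 : ℤ)⟧ ⟶ R, s = 0 := fun s => (h5.shift₁' (a := -1) (m := 0) (by norm_num)).zero s
    exact h6 _)
  have h7 : r = a ≫ r' := hr''
  refine ⟨c, r' ≫ ρ, ?_⟩
  rw [← Category.assoc, ← h7]
  have h5 : w - c • 𝟙 U = r ≫ ρ := hr'
  rw [← h5]
  abel

/-- every endomorphism of `Y i` is a scalar plus a map through `b` -/
theorem soc_factB (hB : BData Y S i a b δ) (hY : YD k S' Y) (hC : CY3 k D) (hS : IsSMC S) (h : MutData S S' i)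
    (hr : HZ (S' i) (S' i) 1) (w : Y i ⟶ Y i) : ∃ (c : k) (w' : Y i ⟶ E), w = c • 𝟙 (Y i) + w' ≫ b := by
  have hS' := h.isSMC hS
  have hYi := hY.mem_heart hC hS' i
  have h1 : hd k (S' i) (Y i) 0 = 1 := by
    rw [hC.hd_cy (S' i) (Y i) 0, show (3 : ℤ) - 0 = 3 by norm_num]
    exact hY.one i 3 (Or.inr rfl)
  obtain ⟨s, hs⟩ := exists_ne_zero_of_hd0 (k := k) (X := S' i) (Z := Y i) (by rw [h1]; exact one_ne_zero)
  obtain ⟨c, hc⟩ := exists_smul_of_hd0 (k := k) h1 hs (s ≫ w)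
  obtain ⟨C, π, θ, hT⟩ := distinguished_cocone_triangle s
  have hCh : hS'.tstr.heart C := hS'.cofibre i hYi s hs hT
  -- `Hom(S' i, C) = 0`
  have hC0 : ∀ f : S' i ⟶ C, f = 0 := by
    intro f
    obtain ⟨g, hg⟩ := Triangle.coyoneda_exact₃ _ hT f (hr _)
    obtain ⟨c', hc'⟩ := exists_smul_of_hd0 (k := k) h1 hs g
    have h3 : s ≫ π = 0 := comp_distTriang_mor_zero₁₂ _ hT
    rw [hg]
    change g ≫ π = 0
    rw [hc', Linear.smul_comp, h3, smul_zero]
  have hCt : hS.tstr.heart C := h.heart_of_tilt hS hCh hC0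
  have h4 : s ≫ (w - c • 𝟙 (Y i)) = 0 := by
    rw [Preadditive.comp_sub, hc, Linear.comp_smul, Category.comp_id, sub_self]
  obtain ⟨r, hr''⟩ := Triangle.yoneda_exact₂ _ hT _ h4
  have h5 : w - c • 𝟙 (Y i) = π ≫ r := hr''
  obtain ⟨r', hr3⟩ := hB.factor (hB.hz_one hY hC hS h hCt) r
  refine ⟨c, π ≫ r', ?_⟩
  rw [Category.assoc, hr3, ← h5]
  abel

/-- the exchange -/
theorem BData.exch (hB : BData Y S i a b δ) (hY : YD k S' Y) (hC : CY3 k D) (hS : IsSMC S) (h : MutData S S' i)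
    (hr : HZ (S' i) (S' i) 1) : Exch k Y i U (Y i) a b δ where
  dist := hB.dist
  sum := filtY_sum (P := fun j => j ≠ i) (fun j j' hj hj' =>
    hY.hz_heart hC (h.isSMC hS) (hY.mem_heart hC (h.isSMC hS) j') (by norm_num) (by norm_num)) hB.filt
  u1 j hj f := by
    obtain ⟨g, hg⟩ := Triangle.yoneda_exact₂ _ (inv_rot_of_distTriang _ hB.dist) f (by
      have h5 : HZ (Y i) (Y j) 1 := hY.hz_heart hC (h.isSMC hS) (hY.mem_heart hC (h.isSMC hS) j)
        (by norm_num) (by norm_num)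
      have h6 : ∀ s : (Y i)⟦(-1 : ℤ)⟧ ⟶ Y j, s = 0 := fun s => (h5.shift₁' (a := -1) (m := 0) (by norm_num)).zero s
      exact h6 _)
    exact ⟨g, hg.symm⟩
  v1 j hj f := hB.factor (hB.hz_one hY hC hS h (hY.mem_heartB hC hS h hj)) f
  u2 w := rad_factB hB hY hC hS h hr w
  v2 w := soc_factB hB hY hC hS h hr w
  u3 w' hw := by
    have h1 := hB.hd_self_zero hY hC h
    obtain ⟨q, hq⟩ := exists_ne_zero_of_hd0 (k := k) (X := U) (Z := S i) (by rw [h1]; exact one_ne_zero)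
    apply hq
    rw [← Category.id_comp q, ← hw, Category.assoc, (hB.hzE hY hC h (j := i) (m := 0) (Or.inl rfl)).zero (w' ≫ q),
      comp_zero]
  v3 w' hw := by
    have h1 : hd k (Y i) (S' i) 0 = 1 := hY.one i 0 (Or.inl rfl)
    obtain ⟨q, hq⟩ := exists_ne_zero_of_hd0 (k := k) (X := Y i) (Z := S' i) (by rw [h1]; exact one_ne_zero)
    apply hq
    rw [← Category.id_comp q, ← hw, Category.assoc, (hB.hzE' hY hC 0).zero (b ≫ q), comp_zero]

end

/-- N2, backward -/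
theorem exch_bwd {t t' : TStructure D} {X X' : ι → D} [IsAlgClosed k] [Fintype ι] (hN : NHyp k D) (hX : SMList t X)
    (hX' : SMList t' X') (κ : ι)
    (hM : MutData X X' κ) (hT : IsFwdTilt t (X κ) t') (hnd : NonDeg t') (hY : YD k X' Y) :
    ∃ (U E : D) (a : U ⟶ E) (b : E ⟶ Y κ) (δ : Y κ ⟶ U⟦(1 : ℤ)⟧), Exch k Y κ U (Y κ) a b δ ∧
      YD k (newX X κ) (newY Y κ U) := by
  have hC : CY3 k D := hN.toCY3
  have hS := hX.isSMC
  obtain ⟨U, E, a, b, δ, hB⟩ := exists_bdata hY hC hS hM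
  exact ⟨U, E, a, b, δ, hB.exch hY hC hS hM (hnd.1 _ (hX'.simple κ)), hB.yd hY hC hS hM⟩

end EGr
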