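import Pool.Agent.Lib_MP_a23b08_n2.YFwd

/-!
# N2-BUniv: existence of the universal map `E ⟶ Y i` (backward exchange)

Here `Y` is dual to the mutation `S'` of `S` at `i`. We extend `Z = (Y i)⟦-1⟧` by objects `Y l`, `l ≠ i`, killing
`Hom(S l, Z⟦1⟧)` one vector at a time.
-/

set_option backward.defeqAttrib.useBackward true
set_option backward.isDefEq.respectTransparency false
set_option linter.unusedSectionVars false
set_option linter.unusedVariables false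

open CategoryTheory CategoryTheory.Limits CategoryTheory.Triangulated CategoryTheory.Pretriangulated
open ZeroObject

universe v u

namespace EGr

variable {k : Type} [Field k] {D : Type u} [Category.{v} D] [Preadditive D] [HasZeroObject D] [HasShift D ℤ]
  [∀ n : ℤ, (shiftFunctor D n).Additive] [Pretriangulated D] [IsTriangulated D] [Linear k D] {ι : Type}
  {S S' Y : ι → D} {i : ι}

/-- `S i = S' i⟦-1⟧` -/
theorem MutData.hz_selfB (h : MutData S S' i) {X : D} {m : ℤ} (hX : HZ X (S' i) (m - 1)) : HZ X (S i) m := by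
  obtain ⟨e⟩ := h.iso
  exact (hX.of_iso₂ e).unshift₂ (by ring)

theorem MutData.hz_selfB' (h : MutData S S' i) {X : D} {m : ℤ} (hX : HZ (S' i) X (m + 1)) : HZ (S i) X m := by
  obtain ⟨e⟩ := h.iso
  exact (hX.of_iso₁ e).unshift₁ (by ring)

/-- `S l`, `l ≠ i`, is in the heart of the tilt -/
theorem MutData.heart_neB (hS : IsSMC S) (h : MutData S S' i) {l : ι} (hl : l ≠ i) :
    (h.isSMC hS).tstr.heart (S l) := by
  obtain ⟨E, a, b, c, hT, hE⟩ := h.tri l hl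
  obtain ⟨e⟩ := h.iso
  refine heart_ext (rot_of_distTriang _ hT) ((h.isSMC hS).mem_heart l) ?_
  refine ((h.isSMC hS).heart_iff _).2 (Filt.mono ?_ (filt_isoTo_shift 1 hE))
  rintro Z ⟨eZ⟩
  exact ⟨i, ⟨eZ ≪≫ e.symm⟩⟩

/-- `Hom(Y j, S l⟦m⟧)` for `j ≠ i`, `l ≠ i` has the dimension of `Hom(Y j, S' l⟦m⟧)` -/
theorem YD.hd_mutB (hY : YD k S' Y) (hC : CY3 k D) (h : MutData S S' i) {j : ι} (hj : j ≠ i)
    {l : ι} (hl : l ≠ i) (m : ℤ) : hd k (Y j) (S l) m = hd k (Y j) (S' l) m := by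
  obtain ⟨E, a, b, c, hT, hE⟩ := h.tri l hl
  have hEz : ∀ p : ℤ, HZ E (Y j) p := fun p => hz_filt₁ hE (fun Z ⟨e⟩ =>
    (h.hz_selfB' (hY.hz' hC (Or.inl hj))).of_iso₁ e.symm)
  rw [hC.hd_cy (Y j) (S' l) m, hd_eq_CB (k := k) hT hC.fin (hEz _) (hEz _), ← hC.hd_cy (Y j) (S l) m]

theorem YD.hz_mutB (hY : YD k S' Y) (hC : CY3 k D) (h : MutData S S' i) {j : ι} (hj : j ≠ i)
    {l : ι} {m : ℤ} (hm : j ≠ l ∨ (m ≠ 0 ∧ m ≠ 3)) : HZ (Y j) (S l) m := by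
  by_cases hl : l = i
  · subst hl
    exact h.hz_selfB (hY.hz hC (Or.inl hj))
  · rw [hz_iff_hd (k := k) hC.fin, hY.hd_mutB hC h hj hl m, ← hz_iff_hd (k := k) hC.fin]
    exact hY.hz hC hm

theorem YD.hz_mutB' (hY : YD k S' Y) (hC : CY3 k D) (h : MutData S S' i) {j : ι} (hj : j ≠ i)
    {l : ι} {m : ℤ} (hm : j ≠ l ∨ (m ≠ 0 ∧ m ≠ 3)) : HZ (S l) (Y j) m :=
  hC.hz (m := 3 - m) (by ring) (hY.hz_mutB hC h hj (hm.imp_right (fun h => ⟨by omega, by omega⟩)))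

theorem YD.hd_mutB_one (hY : YD k S' Y) (hC : CY3 k D) (h : MutData S S' i) {j : ι} (hj : j ≠ i)
    {m : ℤ} (hm : m = 0 ∨ m = 3) : hd k (Y j) (S j) m = 1 := by
  rw [hY.hd_mutB hC h hj hj m]
  exact hY.one j m hm

theorem YD.hd_mutB_one' (hY : YD k S' Y) (hC : CY3 k D) (h : MutData S S' i) {j : ι} (hj : j ≠ i)
    {m : ℤ} (hm : m = 0 ∨ m = 3) : hd k (S j) (Y j) m = 1 := by
  rw [hC.hd_cy (S j) (Y j) m]
  exact hY.hd_mutB_one hC h hj (by omega)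

/-- the `Y j`, `j ≠ i`, are in the old heart -/
theorem YD.mem_heartB (hY : YD k S' Y) (hC : CY3 k D) (hS : IsSMC S) (h : MutData S S' i) {j : ι} (hj : j ≠ i) :
    hS.tstr.heart (Y j) :=
  ⟨hS.le_of_hz (fun l m hm => hY.hz_mutB hC h hj (Or.inr ⟨by omega, by omega⟩)),
    hS.ge_of_hz (fun l m hm => hY.hz_mutB' hC h hj (Or.inr ⟨by omega, by omega⟩))⟩

/-- the hull `S l ⟶ Y l` -/
theorem YD.hull (hY : YD k S' Y) (hC : CY3 k D) (hS : IsSMC S) (h : MutData S S' i) {l : ι} (hl : l ≠ i) :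
    ∃ σ : S l ⟶ Y l, σ ≠ 0 ∧ MonoH (h.isSMC hS).tstr σ := by
  obtain ⟨σ, hσ⟩ := exists_ne_zero_of_hd0 (k := k) (X := S l) (Z := Y l) (by
    rw [hY.hd_mutB_one' hC h hl (Or.inl rfl)]; exact one_ne_zero)
  refine ⟨σ, hσ, ?_⟩
  refine monoH_of (h.isSMC hS).slist (h.heart_neB hS hl) (hY.mem_heart hC (h.isSMC hS) l) σ (fun j g hg => ?_)
  by_cases hj : j = i
  · subst hj
    exact hS.cl_single_hom_zero (by norm_num) h.mem_self (self_mem_cl S l) g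
  · obtain ⟨E, a, b, c, hT, hE⟩ := h.tri j hj
    obtain ⟨g', hg'⟩ := h.lift hS hl hT hE g
    by_cases hjl : j = l
    · subst hjl
      rcases hS.zero_or_iso j g' with h0 | h1
      · rw [hg', h0, comp_zero]
      · exfalso
        apply hσ
        have h2 : b ≫ (g' ≫ σ) = 0 := by rw [← Category.assoc, ← hg', hg]
        obtain ⟨w, hw⟩ := Triangle.yoneda_exact₃ _ hT (g' ≫ σ) h2
        have hEz : HZ E (Y j) (-1) := hz_filt₁ hE (fun Z ⟨e⟩ =>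
          (h.hz_selfB' (hY.hz' hC (Or.inl hl))).of_iso₁ e.symm)
        have hw0 : w = 0 := (hEz.shift₁' (a := 1) (m := 0) (by norm_num)).zero w
        have hgσ : g' ≫ σ = 0 := by
          rw [hw, hw0]
          exact comp_zero
        rw [← cancel_epi g', hgσ, comp_zero]
    · rw [hg', hS.hom_ne j l hjl g', comp_zero]

/-- extending a map `S' l ⟶ Z⟦1⟧` -/
theorem ext_one {t : TStructure D} {A B : D} {σ : A ⟶ B} (hA : t.heart A) (hB : t.heart B) (hσ : MonoH t σ) {Z : D}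
    (hZ : ∀ X : D, t.heart X → HZ X Z 2) (f : A ⟶ Z⟦(1 : ℤ)⟧) : ∃ g : B ⟶ Z⟦(1 : ℤ)⟧, σ ≫ g = f := by
  obtain ⟨C, c, d, hT⟩ := distinguished_cocone_triangle σ
  have hC := hσ.cone hT hA hB
  obtain ⟨g, hg⟩ := Triangle.yoneda_exact₂ _ (inv_rot_of_distTriang _ hT) f
    ((hZ C hC).shift₁ (-1) (by norm_num) _)
  exact ⟨g, hg.symm⟩

section step
variable [Fintype ι] [DecidableEq ι]

/-- one step -/
theorem buniv_step (hY : YD k S' Y) (hC : CY3 k D) (hS : IsSMC S) (h : MutData S S' i) {l : ι} (hl : l ≠ i)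
    {σ : S l ⟶ Y l} (hσ : σ ≠ 0) {Z : D} {f : S l ⟶ Z⟦(1 : ℤ)⟧} (hf : f ≠ 0) {g : Y l ⟶ Z⟦(1 : ℤ)⟧}
    (hg : σ ≫ g = f) (hZ0 : ∀ j, j ≠ i → HZ (S j) Z 0) (hZ2 : ∀ X, (h.isSMC hS).tstr.heart X → HZ X Z 2)
    {W : D} {a : Z ⟶ W} {b : W ⟶ Y l} (hT : Triangle.mk a b g ∈ distTriang D) :
    (∀ j, j ≠ i → HZ (S j) W 0) ∧ (∀ X, (h.isSMC hS).tstr.heart X → HZ X W 2) ∧
      (∀ j, j ≠ i → j ≠ l → hd k (S j) W 1 = hd k (S j) Z 1) ∧ hd k (S l) W 1 + 1 = hd k (S l) Z 1 := by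
  -- maps `w : S l ⟶ Y l` with `w ≫ g = 0` are zero
  have h1σ : hd k (S l) (Y l) 0 = 1 := hY.hd_mutB_one' hC h hl (Or.inl rfl)
  have key : ∀ w : S l ⟶ Y l, w ≫ g = 0 → w = 0 := by
    intro w hw
    obtain ⟨c, hc⟩ := exists_smul_of_hd0 (k := k) h1σ hσ w
    by_cases hc0 : c = 0
    · rw [hc, hc0, zero_smul]
    · exfalso
      apply hf
      rw [hc, Linear.smul_comp, hg] at hw
      exact (smul_eq_zero.1 hw).resolve_left hc0
  refine ⟨fun j hj => ?_, fun X hX => ?_, fun j hj hjl => ?_, ?_⟩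
  · by_cases hjl : l = j
    · subst hjl
      refine HZ.of_zero (fun u => ?_)
      have h2 : b ≫ g = 0 := comp_distTriang_mor_zero₂₃ _ hT
      have h1 : u ≫ b = 0 := key _ (by rw [Category.assoc, h2, comp_zero])
      obtain ⟨s, hs⟩ := Triangle.coyoneda_exact₂ _ hT u h1
      rw [hs, (hZ0 l hj).zero s]
      exact zero_comp
    · exact hz₂' hT (hZ0 j hj) (hY.hz_mutB' hC h hl (Or.inl hjl))
  · exact hz₂' hT (hZ2 X hX) (hY.hz_heart' hC (h.isSMC hS) hX (by norm_num) (by norm_num))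
  · rw [hC.hd_cy (S j) W 1, hC.hd_cy (S j) Z 1]
    exact hd_eq_BA (k := k) hT hC.fin (hY.hz_mutB hC h hl (Or.inl (Ne.symm hjl)))
      (hY.hz_mutB hC h hl (Or.inl (Ne.symm hjl)))
  · have := hC.fin (S l) (W⟦(1 : ℤ)⟧)
    have := hC.fin (S l) (Z⟦(1 : ℤ)⟧)
    have := hC.fin (S l) (Y l)
    let L : (S l ⟶ Z⟦(1 : ℤ)⟧) →ₗ[k] (S l ⟶ W⟦(1 : ℤ)⟧) := Linear.rightComp k _ (a⟦(1 : ℤ)⟧')
    let L' : (S l ⟶ Y l) →ₗ[k] (S l ⟶ Z⟦(1 : ℤ)⟧) := Linear.rightComp k _ g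
    have hL : Function.Surjective L := fun u => by
      have hz : HZ (S l) (Y l) 1 := hY.hz_mutB' hC h hl (Or.inr ⟨by norm_num, by norm_num⟩)
      obtain ⟨v, hv⟩ := Triangle.coyoneda_exact₂ _ (Triangle.shift_distinguished _ hT 1) u (hz _)
      refine ⟨-v, ?_⟩
      change (-v) ≫ a⟦(1 : ℤ)⟧' = u
      rw [hv]
      simp
    have hL' : Function.Injective L' := by
      rw [injective_iff_map_eq_zero]
      exact key
    have hker : LinearMap.ker L = LinearMap.range L' := by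
      ext u
      rw [LinearMap.mem_ker, LinearMap.mem_range]
      constructor
      · intro hu
        obtain ⟨v, hv⟩ := Triangle.coyoneda_exact₁ _ hT u hu
        exact ⟨v, hv.symm⟩
      · rintro ⟨v, rfl⟩
        have h0 : g ≫ a⟦(1 : ℤ)⟧' = 0 := comp_distTriang_mor_zero₃₁ _ hT
        change (v ≫ g) ≫ a⟦(1 : ℤ)⟧' = 0
        rw [Category.assoc, h0, comp_zero]
    have hdim := LinearMap.finrank_range_add_finrank_ker L
    rw [LinearMap.range_eq_top.2 hL, finrank_top, hker, LinearMap.finrank_range_of_inj hL'] at hdim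
    have h1 : Module.finrank k (S l ⟶ Y l) = 1 := by rw [← hd_zero_eq]; exact h1σ
    rw [h1] at hdim
    exact hdim

/-- the iteration -/
theorem buniv (hY : YD k S' Y) (hC : CY3 k D) (hS : IsSMC S) (h : MutData S S' i) (N : ℕ) :
    ∀ Z : D, (∀ j, j ≠ i → HZ (S j) Z 0) → (∀ X, (h.isSMC hS).tstr.heart X → HZ X Z 2) →
      (∑ j ∈ Finset.univ.filter (fun j => j ≠ i), hd k (S j) Z 1) = N →
      ∃ (U E : D) (a : Z ⟶ U) (b : U ⟶ E) (c : E ⟶ Z⟦(1 : ℤ)⟧), Triangle.mk a b c ∈ distTriang D ∧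
        Filt (fun W => ∃ j, j ≠ i ∧ Nonempty (W ≅ Y j)) E ∧ (∀ j, j ≠ i → HZ (S j) U 0) ∧
        ∀ j, j ≠ i → HZ (S j) U 1 := by
  induction N with
  | zero =>
    intro Z hZ0 hZ2 hN
    refine ⟨Z, 0, _, _, _, contractible_distinguished Z, ?_, hZ0, fun j hj => ?_⟩
    · exact Filt.zero _ (isZero_zero D)
    · rw [hz_iff_hd (k := k) hC.fin]
      exact Finset.sum_eq_zero_iff.1 hN j (by simp [hj])
  | succ N ih =>
    intro Z hZ0 hZ2 hN
    have hex : ∃ l, l ≠ i ∧ hd k (S l) Z 1 ≠ 0 := by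
      by_contra hcon
      push Not at hcon
      rw [Finset.sum_eq_zero (fun j hj => hcon j (by simpa using hj))] at hN
      omega
    obtain ⟨l, hl, hl1⟩ := hex
    obtain ⟨f, hf⟩ := exists_ne_zero_of_hd hl1
    obtain ⟨σ, hσ, hσm⟩ := hY.hull hC hS h hl
    obtain ⟨g, hg⟩ := ext_one (h.heart_neB hS hl) (hY.mem_heart hC (h.isSMC hS) l) hσm hZ2 f
    obtain ⟨W, a, b, hT⟩ := distinguished_cocone_triangle₂ g
    obtain ⟨h1, h2, h3, h4⟩ := buniv_step hY hC hS h hl hσ hf hg hZ0 hZ2 hT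
    have hsum : (∑ j ∈ Finset.univ.filter (fun j => j ≠ i), hd k (S j) W 1) = N := by
      have hmem : l ∈ Finset.univ.filter (fun j => j ≠ i) := by simp [hl]
      rw [← Finset.add_sum_erase _ _ hmem] at hN ⊢
      have h5 : ∑ j ∈ (Finset.univ.filter (fun j => j ≠ i)).erase l, hd k (S j) W 1 =
          ∑ j ∈ (Finset.univ.filter (fun j => j ≠ i)).erase l, hd k (S j) Z 1 := by
        refine Finset.sum_congr rfl (fun j hj => ?_)
        rw [Finset.mem_erase, Finset.mem_filter] at hj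
        exact h3 j hj.2.2 hj.1
      omega
    obtain ⟨U, E, a', b', c', hT', hE, hU0, hU1⟩ := ih W h1 h2 hsum
    obtain ⟨F, b'', c'', hT''⟩ := distinguished_cocone_triangle (a ≫ a')
    let o := someOctahedron rfl hT hT' hT''
    refine ⟨U, F, a ≫ a', b'', c'', hT'', ?_, hU0, hU1⟩
    exact Filt.ext₂ _ _ _ o.mem (Filt.of_mem ⟨l, hl, ⟨Iso.refl _⟩⟩) hE

end step

/-- the data of the backward exchange -/
structure BData (Y S : ι → D) (i : ι) {U E : D} (a : U ⟶ E) (b : E ⟶ Y i) (δ : Y i ⟶ U⟦(1 : ℤ)⟧) : Prop where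
  dist : Triangle.mk a b δ ∈ distTriang D
  filt : Filt (fun W => ∃ j, j ≠ i ∧ Nonempty (W ≅ Y j)) E
  u0 : ∀ j, j ≠ i → HZ (S j) U 0
  u1 : ∀ j, j ≠ i → HZ (S j) U 1

theorem exists_bdata [Fintype ι] (hY : YD k S' Y) (hC : CY3 k D) (hS : IsSMC S) (h : MutData S S' i) :
    ∃ (U E : D) (a : U ⟶ E) (b : E ⟶ Y i) (δ : Y i ⟶ U⟦(1 : ℤ)⟧), BData Y S i a b δ := by
  classical
  obtain ⟨U, E, a, b, c, hT, hE, hU0, hU1⟩ := buniv hY hC hS h _ ((Y i)⟦(-1 : ℤ)⟧) (fun j hj =>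
    (hY.hz_heart' hC (h.isSMC hS) (i := i) (h.heart_neB hS hj) (m := -1) (by norm_num)
      (by norm_num)).shift₂ (by norm_num))
    (fun X hX => (hY.hz_heart' hC (h.isSMC hS) (i := i) hX (m := 1) (by norm_num)
      (by norm_num)).shift₂ (by norm_num)) rfl
  let e : ((Y i)⟦(-1 : ℤ)⟧)⟦(1 : ℤ)⟧ ≅ Y i := (shiftEquiv D (1 : ℤ)).counitIso.app (Y i)
  obtain ⟨δ', hT'⟩ : ∃ δ' : ((Y i)⟦(-1 : ℤ)⟧)⟦(1 : ℤ)⟧ ⟶ U⟦(1 : ℤ)⟧, Triangle.mk b c δ' ∈ distTriang D :=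
    ⟨_, rot_of_distTriang _ hT⟩
  refine ⟨U, E, b, c ≫ e.hom, e.inv ≫ δ', ?_, hE, hU0, hU1⟩
  exact isomorphic_distinguished _ hT' _ (Triangle.isoMk _ _ (Iso.refl _) (Iso.refl _) e.symm
    (by simp) (by simp) (by simp))

end EGr
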