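import Pool.Agent.Lib_MP_a23b08_t1.Extra
import Pool.Agent.Lib_MP_a23b08_t.T3

/-!
# N2-HZ: vanishing and dimensions of `Hom(X, Y⟦m⟧)`, long exact sequences
-/

set_option backward.defeqAttrib.useBackward true
set_option backward.isDefEq.respectTransparency false
set_option linter.unusedSectionVars false
set_option linter.unusedVariables false

open CategoryTheory CategoryTheory.Limits CategoryTheory.Triangulated CategoryTheory.Pretriangulated
open ZeroObject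

universe v u

namespace EGr

variable {D : Type u} [Category.{v} D] [Preadditive D] [HasZeroObject D] [HasShift D ℤ]
  [∀ n : ℤ, (shiftFunctor D n).Additive]

/-- all maps `X ⟶ Y⟦m⟧` are zero -/
def HZ (X Y : D) (m : ℤ) : Prop := ∀ f : X ⟶ Y⟦m⟧, f = 0

theorem HZ.shift₁ {X Y : D} {m c : ℤ} (h : HZ X Y c) (a : ℤ) (hc : c + a = m) (f : X⟦a⟧ ⟶ Y⟦m⟧) : f = 0 :=
  shift_hom_zero (c := c) hc h f

theorem HZ.zero {X Y : D} (h : HZ X Y 0) (f : X ⟶ Y) : f = 0 := by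
  let e : Y⟦(0 : ℤ)⟧ ≅ Y := (shiftFunctorZero D ℤ).app Y
  rw [← cancel_mono e.inv, h (f ≫ e.inv), zero_comp]

theorem HZ.of_zero {X Y : D} (h : ∀ f : X ⟶ Y, f = 0) : HZ X Y 0 := by
  intro f
  let e : Y⟦(0 : ℤ)⟧ ≅ Y := (shiftFunctorZero D ℤ).app Y
  rw [← cancel_mono e.hom, h (f ≫ e.hom), zero_comp]

theorem HZ.of_iso₁ {X X' Y : D} {m : ℤ} (e : X ≅ X') (h : HZ X Y m) : HZ X' Y m := by
  intro f
  rw [← cancel_epi e.hom, h (e.hom ≫ f), comp_zero]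

theorem HZ.of_iso₂ {X Y Y' : D} {m : ℤ} (e : Y ≅ Y') (h : HZ X Y m) : HZ X Y' m := by
  intro f
  rw [← cancel_mono (e.inv⟦m⟧'), h (f ≫ e.inv⟦m⟧'), zero_comp]

/-- `Hom(X, Y⟦a⟧⟦m⟧)` -/
theorem HZ.shift₂ {X Y : D} {m a c : ℤ} (h : HZ X Y c) (hc : a + m = c) : HZ X (Y⟦a⟧) m := by
  intro f
  rw [← cancel_mono ((shiftFunctorAdd' D a m c hc).inv.app Y), h (f ≫ _), zero_comp]

theorem HZ.unshift₂ {X Y : D} {m a c : ℤ} (h : HZ X (Y⟦a⟧) m) (hc : a + m = c) : HZ X Y c := by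
  intro f
  rw [← cancel_mono ((shiftFunctorAdd' D a m c hc).hom.app Y), h (f ≫ _), zero_comp]

/-- `Hom(X⟦a⟧, Y⟦m⟧)` -/
theorem HZ.shift₁' {X Y : D} {m a c : ℤ} (h : HZ X Y c) (hc : c + a = m) : HZ (X⟦a⟧) Y m :=
  fun f => h.shift₁ a hc f

theorem HZ.unshift₁ {X Y : D} {m a c : ℤ} (h : HZ (X⟦a⟧) Y m) (hc : c + a = m) : HZ X Y c := by
  have h1 : HZ ((X⟦a⟧)⟦-a⟧) Y c := h.shift₁' (by omega)
  exact h1.of_iso₁ ((shiftEquiv D a).unitIso.app X).symm

variable [Pretriangulated D]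

theorem hz_filt₁ {P : D → Prop} {X Y : D} {m : ℤ} (hX : Filt P X) (h : ∀ Z, P Z → HZ Z Y m) : HZ X Y m :=
  fun f => Filt.hom_zero h hX f

theorem hz_filt₂ {P : D → Prop} {X Y : D} {m : ℤ} (hY : Filt P Y) (h : ∀ Z, P Z → HZ X Z m) : HZ X Y m := by
  induction hY with
  | zero Y hY => exact fun f => ((shiftFunctor D m).map_isZero hY).eq_of_tgt _ _
  | ext A Y B a b c hT _ hB ih =>
    intro f
    obtain ⟨g, hg⟩ := Triangle.coyoneda_exact₂ _ (Triangle.shift_distinguished _ hT m) f (h _ hB _)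
    rw [hg, ih g]
    exact zero_comp

theorem hz_zero₁ {X Y : D} {m : ℤ} (hX : IsZero X) : HZ X Y m := fun f => hX.eq_of_src _ _

theorem hz_zero₂ {X Y : D} {m : ℤ} (hY : IsZero Y) : HZ X Y m :=
  fun f => ((shiftFunctor D m).map_isZero hY).eq_of_tgt _ _

section exact
variable {A B C : D} {f : A ⟶ B} {g : B ⟶ C} {h : C ⟶ A⟦(1 : ℤ)⟧} (hT : Triangle.mk f g h ∈ distTriang D)
include hT

theorem hz₂ {W : D} {m : ℤ} (hA : HZ A W m) (hC : HZ C W m) : HZ B W m := by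
  intro u
  obtain ⟨v, hv⟩ := Triangle.yoneda_exact₂ _ hT u (hA _)
  rw [hv, hC v]
  exact comp_zero

theorem hz₃ {W : D} {m : ℤ} (hA : HZ A W (m - 1)) (hB : HZ B W m) : HZ C W m := by
  intro u
  obtain ⟨v, hv⟩ := Triangle.yoneda_exact₃ _ hT u (hB _)
  rw [hv, hA.shift₁ 1 (by ring) v]
  exact comp_zero

theorem hz₁ {W : D} {m : ℤ} (hB : HZ B W m) (hC : HZ C W (m + 1)) : HZ A W m := by
  intro u
  obtain ⟨v, hv⟩ := Triangle.yoneda_exact₂ _ (inv_rot_of_distTriang _ hT) u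
    ((hC.shift₁' (a := -1) (m := m) (by ring)) _)
  rw [hv, hB v]
  exact comp_zero

theorem hz₂' {W : D} {m : ℤ} (hA : HZ W A m) (hC : HZ W C m) : HZ W B m := by
  intro u
  obtain ⟨v, hv⟩ := Triangle.coyoneda_exact₂ _ (Triangle.shift_distinguished _ hT m) u (hC _)
  rw [hv, hA v]
  exact zero_comp

theorem hz₃' {W : D} {m : ℤ} (hB : HZ W B m) (hA : HZ W A (m + 1)) : HZ W C m :=
  hz₂' (rot_of_distTriang _ hT) hB (hA.shift₂ (by ring))

theorem hz₁' {W : D} {m : ℤ} (hB : HZ W B m) (hC : HZ W C (m - 1)) : HZ W A m :=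
  hz₂' (inv_rot_of_distTriang _ hT) (hC.shift₂ (by ring)) hB

end exact

section lin
variable {k : Type} [Field k] [Linear k D]

theorem hz_iff_hd (hfin : ∀ X Y : D, Module.Finite k (X ⟶ Y)) (X Y : D) (m : ℤ) : HZ X Y m ↔ hd k X Y m = 0 := by
  have := hfin X (Y⟦m⟧)
  unfold hd
  rw [Module.finrank_zero_iff]
  constructor
  · intro h
    exact ⟨fun a b => by rw [h a, h b]⟩
  · intro h f
    exact Subsingleton.elim _ _

variable {A B C : D} {f : A ⟶ B} {g : B ⟶ C} {h : C ⟶ A⟦(1 : ℤ)⟧} (hT : Triangle.mk f g h ∈ distTriang D)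
include hT

/-- `0 → Hom(C, W) → Hom(B, W) → Hom(A, W) → 0` -/
theorem hd_add (hfin : ∀ X Y : D, Module.Finite k (X ⟶ Y)) {W : D} {m : ℤ} (hA : HZ A W (m - 1)) (hC : HZ C W (m + 1)) :
    hd k B W m = hd k A W m + hd k C W m := by
  have := hfin A (W⟦m⟧)
  have := hfin B (W⟦m⟧)
  have := hfin C (W⟦m⟧)
  let L : (B ⟶ W⟦m⟧) →ₗ[k] (A ⟶ W⟦m⟧) := Linear.leftComp k _ f
  let L' : (C ⟶ W⟦m⟧) →ₗ[k] (B ⟶ W⟦m⟧) := Linear.leftComp k _ g
  have hL : Function.Surjective L := fun u => by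
    obtain ⟨v, hv⟩ := Triangle.yoneda_exact₂ _ (inv_rot_of_distTriang _ hT) u
      ((hC.shift₁' (a := -1) (m := m) (by ring)) _)
    exact ⟨v, hv.symm⟩
  have hL' : Function.Injective L' := by
    rw [injective_iff_map_eq_zero]
    intro u hu
    obtain ⟨v, hv⟩ := Triangle.yoneda_exact₃ _ hT u hu
    rw [hv, hA.shift₁ 1 (by ring) v]
    exact comp_zero
  have hker : LinearMap.ker L = LinearMap.range L' := by
    ext u
    rw [LinearMap.mem_ker, LinearMap.mem_range]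
    constructor
    · intro hu
      obtain ⟨v, hv⟩ := Triangle.yoneda_exact₂ _ hT u hu
      exact ⟨v, hv.symm⟩
    · rintro ⟨v, rfl⟩
      have h0 : f ≫ g = 0 := comp_distTriang_mor_zero₁₂ _ hT
      change f ≫ (g ≫ v) = 0
      rw [← Category.assoc, h0, zero_comp]
  have hdim := LinearMap.finrank_range_add_finrank_ker L
  rw [LinearMap.range_eq_top.2 hL, finrank_top, hker, LinearMap.finrank_range_of_inj hL'] at hdim
  unfold hd
  exact hdim.symm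

/-- `Hom(C, W) ≅ Hom(B, W)` -/
theorem hd_eq_CB (hfin : ∀ X Y : D, Module.Finite k (X ⟶ Y)) {W : D} {m : ℤ} (hA : HZ A W (m - 1)) (hA' : HZ A W m) :
    hd k B W m = hd k C W m := by
  have := hfin B (W⟦m⟧)
  have := hfin C (W⟦m⟧)
  let L' : (C ⟶ W⟦m⟧) →ₗ[k] (B ⟶ W⟦m⟧) := Linear.leftComp k _ g
  have hL' : Function.Injective L' := by
    rw [injective_iff_map_eq_zero]
    intro u hu
    obtain ⟨v, hv⟩ := Triangle.yoneda_exact₃ _ hT u hu
    rw [hv, hA.shift₁ 1 (by ring) v]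
    exact comp_zero
  have hL : Function.Surjective L' := fun u => by
    obtain ⟨v, hv⟩ := Triangle.yoneda_exact₂ _ hT u (hA' _)
    exact ⟨v, hv.symm⟩
  exact (LinearEquiv.ofBijective L' ⟨hL', hL⟩).finrank_eq.symm

/-- `Hom(B, W) ≅ Hom(A, W)` -/
theorem hd_eq_BA (hfin : ∀ X Y : D, Module.Finite k (X ⟶ Y)) {W : D} {m : ℤ} (hC : HZ C W m) (hC' : HZ C W (m + 1)) :
    hd k B W m = hd k A W m := by
  have := hfin A (W⟦m⟧)
  have := hfin B (W⟦m⟧)
  let L : (B ⟶ W⟦m⟧) →ₗ[k] (A ⟶ W⟦m⟧) := Linear.leftComp k _ f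
  have hL : Function.Surjective L := fun u => by
    obtain ⟨v, hv⟩ := Triangle.yoneda_exact₂ _ (inv_rot_of_distTriang _ hT) u
      ((hC'.shift₁' (a := -1) (m := m) (by ring)) _)
    exact ⟨v, hv.symm⟩
  have hL' : Function.Injective L := by
    rw [injective_iff_map_eq_zero]
    intro u hu
    obtain ⟨v, hv⟩ := Triangle.yoneda_exact₂ _ hT u hu
    rw [hv, hC v]
    exact comp_zero
  exact (LinearEquiv.ofBijective L ⟨hL', hL⟩).finrank_eq

end lin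

end EGr
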