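import Pool.Agent.Lib_MP_a23b08_n2.HZ
import Pool.Agent.Lib_MP_a23b08_n.NHeart

/-!
# N2-YDefs: the projective-injective objects `Y i` of a heart, elementary consequences
-/

set_option backward.defeqAttrib.useBackward true
set_option backward.isDefEq.respectTransparency false
set_option linter.unusedSectionVars false
set_option linter.unusedVariables false

open CategoryTheory CategoryTheory.Limits CategoryTheory.Triangulated CategoryTheory.Pretriangulated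
open ZeroObject

universe v u

namespace EGr

variable {k : Type} [Field k] {D : Type u} [Category.{v} D] [Preadditive D] [HasZeroObject D] [HasShift D ℤ]
  [∀ n : ℤ, (shiftFunctor D n).Additive] [Pretriangulated D] [IsTriangulated D] [Linear k D] {ι : Type}
  {S S' Y : ι → D} {i : ι}

theorem CY3.hz (hC : CY3 k D) {X Y : D} {m m' : ℤ} (hm : m + m' = 3) (h : HZ X Y m) : HZ Y X m' := by
  rw [hz_iff_hd (k := k) hC.fin] at h ⊢
  have h1 := hC.cy X Y m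
  unfold hd at h ⊢
  rw [h] at h1
  rw [← (show 3 - m = m' by omega)]
  exact h1.symm

theorem CY3.hd_cy (hC : CY3 k D) (X Y : D) (m : ℤ) : hd k X Y m = hd k Y X (3 - m) := hC.cy X Y m

theorem CY3.hd_shift_left (hC : CY3 k D) (X Y : D) (a m c : ℤ) (h : c + a = m) : hd k (X⟦a⟧) Y m = hd k X Y c := by
  rw [hC.hd_cy (X⟦a⟧) Y m, hC.hd_cy X Y c]
  exact hd_shift_right Y X a (3 - m) (3 - c) (by omega)

theorem YD.hz (hY : YD k S Y) (hC : CY3 k D) {i j : ι} {m : ℤ} (h : i ≠ j ∨ (m ≠ 0 ∧ m ≠ 3)) :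
    HZ (Y i) (S j) m := by
  rw [hz_iff_hd (k := k) hC.fin]
  exact hY.zero i j m h

theorem YD.hz' (hY : YD k S Y) (hC : CY3 k D) {i j : ι} {m : ℤ} (h : i ≠ j ∨ (m ≠ 0 ∧ m ≠ 3)) :
    HZ (S j) (Y i) m := by
  refine hC.hz (m := 3 - m) (by ring) (hY.hz hC ?_)
  rcases h with h | h
  · exact Or.inl h
  · exact Or.inr ⟨by omega, by omega⟩

theorem heart_filt_single (hS : IsSMC S) {X : D} (hX : hS.tstr.heart X) : Filt (fun Y => ∃ i, Nonempty (Y ≅ S i)) X :=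
  (hS.heart_iff X).1 hX

theorem YD.hz_heart (hY : YD k S Y) (hC : CY3 k D) (hS : IsSMC S) {i : ι} {X : D} (hX : hS.tstr.heart X) {m : ℤ}
    (h0 : m ≠ 0) (h3 : m ≠ 3) : HZ (Y i) X m := by
  refine hz_filt₂ (heart_filt_single hS hX) ?_
  rintro Z ⟨j, ⟨e⟩⟩
  exact (hY.hz hC (Or.inr ⟨h0, h3⟩)).of_iso₂ e.symm

theorem YD.hz_heart' (hY : YD k S Y) (hC : CY3 k D) (hS : IsSMC S) {i : ι} {X : D} (hX : hS.tstr.heart X) {m : ℤ}
    (h0 : m ≠ 0) (h3 : m ≠ 3) : HZ X (Y i) m := by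
  refine hz_filt₁ (heart_filt_single hS hX) ?_
  rintro Z ⟨j, ⟨e⟩⟩
  exact (hY.hz' hC (Or.inr ⟨h0, h3⟩)).of_iso₁ e.symm

/-- criterion for `le 0` -/
theorem IsSMC.le_of_hz (hS : IsSMC S) {X : D} (h : ∀ (j : ι) (m : ℤ), m < 0 → HZ X (S j) m) : hS.tstr.le 0 X := by
  rw [le_iff_orth]
  intro Z f hZ
  refine Filt.zero_hom ?_ hZ f
  rintro W ⟨j, m, hm, ⟨e⟩⟩ g
  rw [Set.mem_Iic] at hm
  rw [← cancel_mono e.hom, h j m (by omega) (g ≫ e.hom), zero_comp]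

/-- criterion for `ge 0` -/
theorem IsSMC.ge_of_hz (hS : IsSMC S) {X : D} (h : ∀ (j : ι) (m : ℤ), m < 0 → HZ (S j) X m) : hS.tstr.ge 0 X := by
  rw [ge_iff_orth]
  intro Z f hZ
  refine Filt.hom_zero ?_ hZ f
  rintro W ⟨j, m, hm, ⟨e⟩⟩ g
  rw [Set.mem_Ici] at hm
  let e0 : X⟦(0 : ℤ)⟧ ≅ X := (shiftFunctorZero D ℤ).app X
  rw [← cancel_epi e.inv, ← cancel_mono e0.inv,
    (h j (-m) (by omega)).shift₁ m (by ring) ((e.inv ≫ g) ≫ e0.inv)]
  simp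

theorem YD.mem_heart (hY : YD k S Y) (hC : CY3 k D) (hS : IsSMC S) (i : ι) : hS.tstr.heart (Y i) :=
  ⟨hS.le_of_hz (fun j m hm => hY.hz hC (Or.inr ⟨by omega, by omega⟩)),
    hS.ge_of_hz (fun j m hm => hY.hz' hC (Or.inr ⟨by omega, by omega⟩))⟩

theorem heart_hz_neg (t : TStructure D) {A B : D} (hA : t.heart A) (hB : t.heart B) {m : ℤ} (hm : m < 0) : HZ A B m :=
  fun f => le_zero_of t (a := 0) (b := -m) (by omega) hA.1 ((ge_of_shift t (n := 0) (by ring)).2 hB.2) f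

theorem MutData.heart_ne (hS : IsSMC S) (h : MutData S S' i) {l : ι} (hl : l ≠ i) : hS.tstr.heart (S' l) :=
  (hS.tstr_heart _).2 (h.mem_ne hl)

theorem MutData.hz_self {X : D} (h : MutData S S' i) {m : ℤ} (hX : HZ X (S i) (m + 1)) : HZ X (S' i) m := by
  obtain ⟨e⟩ := h.iso
  exact (hX.shift₂ (a := 1) (by ring)).of_iso₂ e.symm

/-- `Hom(Y j, S' l⟦m⟧)` for `j ≠ i`, `l ≠ i` has the dimension of `Hom(Y j, S l⟦m⟧)` -/
theorem YD.hd_mut (hY : YD k S Y) (hC : CY3 k D) (h : MutData S S' i) {j : ι} (hj : j ≠ i)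
    {l : ι} (hl : l ≠ i) (m : ℤ) : hd k (Y j) (S' l) m = hd k (Y j) (S l) m := by
  obtain ⟨E, a, b, c, hT, hE⟩ := h.tri l hl
  have hEz : ∀ p : ℤ, HZ E (Y j) p := fun p => hz_filt₁ hE (fun Z ⟨e⟩ => (hY.hz' hC (Or.inl hj)).of_iso₁ e.symm)
  rw [hC.hd_cy (Y j) (S' l) m, hd_eq_CB (k := k) hT hC.fin (hEz _) (hEz _), ← hC.hd_cy (Y j) (S l) m]

theorem YD.hz_mut (hY : YD k S Y) (hC : CY3 k D) (h : MutData S S' i) {j : ι} (hj : j ≠ i)
    {l : ι} {m : ℤ} (hm : j ≠ l ∨ (m ≠ 0 ∧ m ≠ 3)) : HZ (Y j) (S' l) m := by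
  by_cases hl : l = i
  · subst hl
    exact h.hz_self (hY.hz hC (Or.inl hj))
  · rw [hz_iff_hd (k := k) hC.fin, hY.hd_mut hC h hj hl m, ← hz_iff_hd (k := k) hC.fin]
    exact hY.hz hC hm

theorem YD.hd_mut_one (hY : YD k S Y) (hC : CY3 k D) (h : MutData S S' i) {j : ι} (hj : j ≠ i)
    {m : ℤ} (hm : m = 0 ∨ m = 3) : hd k (Y j) (S' j) m = 1 := by
  rw [hY.hd_mut hC h hj hj m]
  exact hY.one j m hm

theorem YD.mem_heart' (hY : YD k S Y) (hC : CY3 k D) (hS : IsSMC S) (h : MutData S S' i) {j : ι} (hj : j ≠ i) :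
    (h.isSMC hS).tstr.heart (Y j) :=
  ⟨(h.isSMC hS).le_of_hz (fun l m hm => hY.hz_mut hC h hj (Or.inr ⟨by omega, by omega⟩)),
    (h.isSMC hS).ge_of_hz (fun l m hm => hC.hz (m := 3 - m) (by ring)
      (hY.hz_mut hC h hj (Or.inr ⟨by omega, by omega⟩)))⟩

/-- a nonzero map, from a dimension -/
theorem exists_ne_zero_of_hd {X Z : D} {m : ℤ} (h : hd k X Z m ≠ 0) : ∃ f : X ⟶ Z⟦m⟧, f ≠ 0 := by
  by_contra hcon
  push Not at hcon
  apply h
  have : Subsingleton (X ⟶ Z⟦m⟧) := ⟨fun a b => by rw [hcon a, hcon b]⟩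
  exact Module.finrank_zero_of_subsingleton

theorem exists_ne_zero_of_hd0 {X Z : D} (h : hd k X Z 0 ≠ 0) : ∃ f : X ⟶ Z, f ≠ 0 := by
  obtain ⟨f, hf⟩ := exists_ne_zero_of_hd h
  let e : Z⟦(0 : ℤ)⟧ ≅ Z := (shiftFunctorZero D ℤ).app Z
  exact ⟨f ≫ e.hom, fun h0 => hf (by rw [← cancel_mono e.hom, h0, zero_comp])⟩

theorem hd_zero_eq (X Z : D) : hd k X Z 0 = Module.finrank k (X ⟶ Z) := by
  let e : Z⟦(0 : ℤ)⟧ ≅ Z := (shiftFunctorZero D ℤ).app Z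
  exact LinearEquiv.finrank_eq
    { toFun := fun u => u ≫ e.hom
      invFun := fun u => u ≫ e.inv
      map_add' := by intro a b; simp
      map_smul' := by intro a b; simp
      left_inv := by intro a; simp
      right_inv := by intro a; simp }

/-- if `Hom(X, Z)` is one-dimensional all maps are multiples of a given nonzero one -/
theorem exists_smul_of_hd0 {X Z : D} (h : hd k X Z 0 = 1) {f : X ⟶ Z} (hf : f ≠ 0) (g : X ⟶ Z) : ∃ c : k, g = c • f := by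
  rw [hd_zero_eq] at h
  obtain ⟨c, hc⟩ := (finrank_eq_one_iff_of_nonzero' f hf).1 h g
  exact ⟨c, hc.symm⟩

end EGr
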