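import Pool.Agent.Lib_MP_a23b08_n2.YUniv

/-!
# N2-YFwd: the exchange of `Y i` under the forward tilt
-/

set_option backward.defeqAttrib.useBackward true
set_option backward.isDefEq.respectTransparency false
set_option linter.unusedSectionVars false
set_option linter.unusedVariables false

open CategoryTheory CategoryTheory.Limits CategoryTheory.Triangulated CategoryTheory.Pretriangulated
open ZeroObject

universe v u

namespace EGr

variable {k : Type} [Field k] {D : Type u} [Category.{v} D] [Preadditive D] [HasZeroObject D] [HasShift D ℤ]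
  [∀ n : ℤ, (shiftFunctor D n).Additive] [Pretriangulated D] [IsTriangulated D] [Linear k D] {ι : Type}
  {S S' Y : ι → D} {i : ι}

/-- rotating `E ⟶ V ⟶ A⟦1⟧` to `A ⟶ E ⟶ V ⟶ A⟦1⟧` -/
theorem exists_rot {A E V : D} {a : E ⟶ V} {b : V ⟶ A⟦(1 : ℤ)⟧} {c : A⟦(1 : ℤ)⟧ ⟶ E⟦(1 : ℤ)⟧}
    (hT : Triangle.mk a b c ∈ distTriang D) : ∃ (f : A ⟶ E) (δ : V ⟶ A⟦(1 : ℤ)⟧), Triangle.mk f a δ ∈ distTriang D := by
  obtain ⟨p, q, hT'⟩ : ∃ (p : (A⟦(1 : ℤ)⟧)⟦(-1 : ℤ)⟧ ⟶ E) (q : V ⟶ ((A⟦(1 : ℤ)⟧)⟦(-1 : ℤ)⟧)⟦(1 : ℤ)⟧),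
    Triangle.mk p a q ∈ distTriang D := ⟨_, _, inv_rot_of_distTriang _ hT⟩
  let e : (A⟦(1 : ℤ)⟧)⟦(-1 : ℤ)⟧ ≅ A := ((shiftEquiv D (1 : ℤ)).unitIso.app A).symm
  refine ⟨e.inv ≫ p, q ≫ e.hom⟦(1 : ℤ)⟧', ?_⟩
  exact isomorphic_distinguished _ hT' _ (Triangle.isoMk _ _ e.symm (Iso.refl _) (Iso.refl _)
    (by simp) (by simp) (by
      simp only [Triangle.mk_mor₃, Iso.refl_hom, Category.id_comp, Category.assoc, Iso.symm_hom]
      rw [← Functor.map_comp]
      simp))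

theorem filtY_hz {P : ι → Prop} {E X : D} {m : ℤ} (hE : Filt (fun W => ∃ j, P j ∧ Nonempty (W ≅ Y j)) E)
    (h : ∀ j, P j → HZ (Y j) X m) : HZ E X m := by
  refine hz_filt₁ hE ?_
  rintro Z ⟨j, hj, ⟨e⟩⟩
  exact (h j hj).of_iso₁ e.symm

theorem filtY_hz' {P : ι → Prop} {E X : D} {m : ℤ} (hE : Filt (fun W => ∃ j, P j ∧ Nonempty (W ≅ Y j)) E)
    (h : ∀ j, P j → HZ X (Y j) m) : HZ X E m := by
  refine hz_filt₂ hE ?_
  rintro Z ⟨j, hj, ⟨e⟩⟩
  exact (h j hj).of_iso₂ e.symm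

/-- an iterated extension of the `Y j` is a direct sum -/
theorem filtY_sum {P : ι → Prop} {E : D} (hY1 : ∀ j j', P j → P j' → HZ (Y j) (Y j') 1)
    (hE : Filt (fun W => ∃ j, P j ∧ Nonempty (W ≅ Y j)) E) :
    ∃ (m : ℕ) (φ : Fin m → ι) (inj : ∀ r, Y (φ r) ⟶ E) (pr : ∀ r, E ⟶ Y (φ r)),
      (∀ r, P (φ r)) ∧ ∑ r, pr r ≫ inj r = 𝟙 E := by
  have key : ∃ (ρ : Type) (_ : Fintype ρ) (φ : ρ → ι) (inj : ∀ r, Y (φ r) ⟶ E) (pr : ∀ r, E ⟶ Y (φ r)),
      (∀ r, P (φ r)) ∧ ∑ r, pr r ≫ inj r = 𝟙 E := by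
    induction hE with
    | zero E hE =>
      exact ⟨Empty, inferInstance, fun r => r.elim, fun r => r.elim, fun r => r.elim, fun r => r.elim,
        hE.eq_of_src _ _⟩
    | ext A E B f g h hT hA hB ih =>
      obtain ⟨ρ, _, φ, inj, pr, hφ, hsum⟩ := ih
      obtain ⟨j, hj, ⟨e⟩⟩ := hB
      have h0 : h = 0 := by
        rw [← cancel_epi e.inv, comp_zero]
        exact filtY_hz' hA (fun j' hj' => hY1 j j' hj hj') _
      obtain ⟨e', he1, he2⟩ : ∃ e' : E ≅ A ⊞ B, f ≫ e'.hom = biprod.inl ∧ g = e'.hom ≫ biprod.snd :=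
        exists_iso_binaryBiproduct_of_distTriang _ hT h0
      refine ⟨Option ρ, inferInstance, fun o => o.elim j φ,
        fun o => match o with
          | none => e.inv ≫ biprod.inr ≫ e'.inv
          | some r => inj r ≫ biprod.inl ≫ e'.inv,
        fun o => match o with
          | none => e'.hom ≫ biprod.snd ≫ e.hom
          | some r => e'.hom ≫ biprod.fst ≫ pr r, ?_, ?_⟩
      · rintro (_ | r)
        · exact hj
        · exact hφ r
      · rw [Fintype.sum_option]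
        simp only [Category.assoc, Iso.hom_inv_id_assoc]
        have h1 : ∀ r, e'.hom ≫ biprod.fst ≫ pr r ≫ inj r ≫ biprod.inl ≫ e'.inv =
            e'.hom ≫ biprod.fst ≫ (pr r ≫ inj r) ≫ biprod.inl ≫ e'.inv := fun r => by simp
        simp only [h1]
        rw [← Preadditive.comp_sum, ← Preadditive.comp_sum, ← Preadditive.sum_comp, hsum, Category.id_comp]
        rw [← Preadditive.comp_add, ← Category.assoc biprod.snd, ← Category.assoc biprod.fst,
          ← Preadditive.add_comp, add_comm, biprod.total]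
        simp
  obtain ⟨ρ, _, φ, inj, pr, hφ, hsum⟩ := key
  let eq := Fintype.equivFin ρ
  refine ⟨Fintype.card ρ, fun r => φ (eq.symm r), fun r => inj (eq.symm r), fun r => pr (eq.symm r),
    fun r => hφ _, ?_⟩
  rw [← hsum]
  exact Equiv.sum_comp eq.symm (fun r => pr r ≫ inj r)

end EGr
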