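import Pool.Agent.Lib_MP_a23b08_n2.YFwd

/-!
# N2-YFwd2: dimensions of `Hom(V, S' l⟦m⟧)`
-/

set_option backward.defeqAttrib.useBackward true
set_option backward.isDefEq.respectTransparency false
set_option linter.unusedSectionVars false
set_option linter.unusedVariables false

open CategoryTheory CategoryTheory.Limits CategoryTheory.Triangulated CategoryTheory.Pretriangulated
open ZeroObject

universe v u

namespace EGr

variable {k : Type} [Field k] {D : Type u} [Category.{v} D] [Preadditive D] [HasZeroObject D] [HasShift D ℤ]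
  [∀ n : ℤ, (shiftFunctor D n).Additive] [Pretriangulated D] [IsTriangulated D] [Linear k D] {ι : Type}
  {S S' Y : ι → D} {i : ι}

/-- the data of the forward exchange -/
structure FData (Y S' : ι → D) (i : ι) {E V : D} (a : Y i ⟶ E) (b : E ⟶ V) (δ : V ⟶ (Y i)⟦(1 : ℤ)⟧) : Prop where
  dist : Triangle.mk a b δ ∈ distTriang D
  filt : Filt (fun W => ∃ j, j ≠ i ∧ Nonempty (W ≅ Y j)) E
  v0 : ∀ j, j ≠ i → HZ V (S' j) 0
  v1 : ∀ j, j ≠ i → HZ V (S' j) 1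

theorem exists_fdata [Fintype ι] (hY : YD k S Y) (hC : CY3 k D) (hS : IsSMC S) (h : MutData S S' i) :
    ∃ (E V : D) (a : Y i ⟶ E) (b : E ⟶ V) (δ : V ⟶ (Y i)⟦(1 : ℤ)⟧), FData Y S' i a b δ := by
  classical
  obtain ⟨E, V, a, b, c, hT, hE, hV0, hV1⟩ := yuniv hY hC hS h _ ((Y i)⟦(1 : ℤ)⟧) (fun j hj =>
    (hY.hz_heart hC hS (i := i) (h.heart_ne hS hj) (m := -1) (by norm_num) (by norm_num)).shift₁' (by norm_num))
    (fun X hX => (hY.hz_heart hC hS (i := i) hX (m := 1) (by norm_num) (by norm_num)).shift₁' (by norm_num)) rfl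
  obtain ⟨f, δ, hT'⟩ := exists_rot hT
  exact ⟨E, V, f, a, δ, hT', hE, hV0, hV1⟩

section
variable {E V : D} {a : Y i ⟶ E} {b : E ⟶ V} {δ : V ⟶ (Y i)⟦(1 : ℤ)⟧}

theorem FData.hzE (hF : FData Y S' i a b δ) (hY : YD k S Y) (hC : CY3 k D) (h : MutData S S' i) {j : ι} {m : ℤ}
    (hm : j = i ∨ (m ≠ 0 ∧ m ≠ 3)) : HZ E (S' j) m :=
  filtY_hz hF.filt (fun l hl => hY.hz_mut hC h hl (by
    rcases hm with hm | hm
    · exact Or.inl (by rw [hm]; exact hl)
    · exact Or.inr hm))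

theorem FData.hzE' (hF : FData Y S' i a b δ) (hY : YD k S Y) (hC : CY3 k D) (m : ℤ) : HZ E (S i) m :=
  filtY_hz hF.filt (fun l hl => hY.hz hC (Or.inl hl))

/-- `Hom(V, S' i⟦m⟧)` -/
theorem FData.hd_self (hF : FData Y S' i a b δ) (hY : YD k S Y) (hC : CY3 k D) (h : MutData S S' i) (m : ℤ) :
    hd k V (S' i) m = hd k (Y i) (S i) m := by
  obtain ⟨e⟩ := h.iso
  have hrot : Triangle.mk b δ (-a⟦(1 : ℤ)⟧') ∈ distTriang D := rot_of_distTriang _ hF.dist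
  rw [hd_congr_right (k := k) e, hd_shift_right V (S i) 1 m (m + 1) (by ring),
    hd_eq_CB (k := k) hrot hC.fin (hF.hzE' hY hC _) (hF.hzE' hY hC _)]
  exact hC.hd_shift_left (Y i) (S i) 1 (m + 1) m (by ring)

theorem FData.hz_self_one (hF : FData Y S' i a b δ) (hY : YD k S Y) (hC : CY3 k D) (h : MutData S S' i) :
    HZ V (S' i) 1 := by
  rw [hz_iff_hd (k := k) hC.fin, hF.hd_self hY hC h 1]
  exact hY.zero i i 1 (Or.inr ⟨by norm_num, by norm_num⟩)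

/-- `Hom(V, X⟦1⟧) = 0` for `X` in the heart of the mutation -/
theorem FData.hz_one (hF : FData Y S' i a b δ) (hY : YD k S Y) (hC : CY3 k D) (hS : IsSMC S) (h : MutData S S' i) {X : D}
    (hX : (h.isSMC hS).tstr.heart X) : HZ V X 1 := by
  refine hz_filt₂ (heart_filt_single _ hX) ?_
  rintro Z ⟨j, ⟨e⟩⟩
  by_cases hj : j = i
  · subst hj
    exact (hF.hz_self_one hY hC h).of_iso₂ e.symm
  · exact (hF.v1 j hj).of_iso₂ e.symm

/-- maps `Y i ⟶ X`, `X` in the heart of the mutation, factor through `a` -/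
theorem FData.factor (hF : FData Y S' i a b δ) {X : D} (hX : HZ V X 1) (f : Y i ⟶ X) : ∃ f' : E ⟶ X, a ≫ f' = f := by
  obtain ⟨g, hg⟩ := Triangle.yoneda_exact₂ _ (inv_rot_of_distTriang _ hF.dist) f (by
    have h1 : ∀ r : V⟦(-1 : ℤ)⟧ ⟶ X, r = 0 := fun r => (hX.shift₁' (a := -1) (m := 0) (by norm_num)).zero r
    exact h1 _)
  exact ⟨g, hg.symm⟩

/-- the injectivity of `Hom(S' l, Y i) ⟶ Hom(S' l, E)` -/
theorem FData.inj (hF : FData Y S' i a b δ) (hY : YD k S Y) (hC : CY3 k D) (hS : IsSMC S) (h : MutData S S' i)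
    {l : ι} (hl : l ≠ i) (φ : S' l ⟶ Y i) (hφ : φ ≫ a = 0) : φ = 0 := by
  by_contra hφ0
  obtain ⟨E', a', p, c', hT', hE'⟩ := h.tri l hl
  have hSl := h.heart_ne hS hl
  have hYi := hY.mem_heart hC hS i
  have hYl := hY.mem_heart hC hS l
  -- the map `ψ : S' l ⟶ S l ⟶ Y l`
  obtain ⟨σ, hσ⟩ := exists_ne_zero_of_hd0 (k := k) (X := S l) (Z := Y l) (by
    rw [hC.hd_cy (S l) (Y l) 0]
    have := hY.one l 3 (Or.inr rfl)
    change hd k (Y l) (S l) 3 = 1 at this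
    rw [show (3 : ℤ) - 0 = 3 by norm_num, this]; exact one_ne_zero)
  have hψ : p ≫ σ ≠ 0 := by
    intro h0
    obtain ⟨w, hw⟩ := Triangle.yoneda_exact₃ _ hT' σ h0
    apply hσ
    have hEh : hS.tstr.heart E' := (hS.tstr_heart E').2 (filt_isoTo_mem hE')
    rw [hw, heart_shift_hom hEh hYl w]
    exact comp_zero
  -- the truncated cone of `φ`
  obtain ⟨C, c, d, hT⟩ := distinguished_cocone_triangle φ
  obtain ⟨K, Q, α, β, γ, hK, hQ, hKQ⟩ := cone_trunc hS.tstr hT hSl hYi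
  obtain ⟨κ, hκ, hκφ⟩ := exists_ker α hT
  by_cases hκp : κ ≫ p = 0
  · -- `ψ` extends along `φ`
    have h1 : d ≫ (p ≫ σ)⟦(1 : ℤ)⟧' = 0 := by
      have h2 : α ≫ (d ≫ (p ≫ σ)⟦(1 : ℤ)⟧') = 0 := by
        rw [← Category.assoc, ← hκ, ← Functor.map_comp, ← Category.assoc, hκp, zero_comp, Functor.map_zero]
      obtain ⟨w, hw⟩ := Triangle.yoneda_exact₂ _ hKQ _ h2
      have hw0 : w = 0 := hY.hz_heart' hC hS hQ (m := 1) (by norm_num) (by norm_num) w
      rw [hw, hw0]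
      exact comp_zero
    obtain ⟨u, hu⟩ := Triangle.yoneda_exact₂ _ (rot_of_distTriang _ (rot_of_distTriang _ hT)) ((p ≫ σ)⟦(1 : ℤ)⟧') h1
    -- `u : Y i⟦1⟧ ⟶ Y l⟦1⟧`
    obtain ⟨u', rfl⟩ := (shiftFunctor D (1 : ℤ)).map_surjective u
    have h3 : p ≫ σ = φ ≫ (-u') := by
      apply (shiftFunctor D (1 : ℤ)).map_injective
      rw [hu]
      change (-φ⟦(1 : ℤ)⟧') ≫ u'⟦(1 : ℤ)⟧' = (φ ≫ (-u'))⟦(1 : ℤ)⟧'
      rw [Preadditive.comp_neg, Functor.map_neg, Functor.map_comp, Preadditive.neg_comp]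
    obtain ⟨u'', hu''⟩ := hF.factor (hF.hz_one hY hC hS h (hY.mem_heart' hC hS h hl)) (-u')
    apply hψ
    rw [h3, ← hu'', ← Category.assoc, hφ, zero_comp]
  · -- the image is zero
    obtain ⟨I, i', r, hI⟩ := distinguished_cocone_triangle₁ (c ≫ β)
    let o := someOctahedron' rfl hT hKQ hI
    have hI1 : hS.tstr.le 0 I := le₂ _ 0 o.mem hSl.1
      (le_mono' _ (by norm_num : (-1 : ℤ) ≤ 0) ((le_of_shift _ (n := 0) (by ring)).2 hK.1))
    have hI2 : hS.tstr.ge 0 I := ge₁ _ 0 hI hYi.2 (ge_anti' _ (by norm_num) hQ.2)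
    have hI0 : IsZero I := by
      refine hS.isZero_of_hom ⟨hI1, hI2⟩ (fun j f => ?_)
      have hK0 : ∀ w : K⟦(1 : ℤ)⟧ ⟶ S j, w = 0 := fun w => heart_shift_hom hK (hS.mem_heart j) w
      have hm0 : o.m₁ ≫ f = 0 := by
        by_cases hj : j = i
        · subst hj
          exact h.hom0 l hl _
        · obtain ⟨g, hg⟩ := h.lift hS hj hT' hE' (o.m₁ ≫ f)
          by_cases hjl : l = j
          · subst hjl
            rcases hS.zero_or_iso l g with hg0 | hg1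
            · rw [hg, hg0, comp_zero]
            · exfalso
              apply hκp
              -- `κ ≫ m₁ = 0`
              have h4 : κ⟦(1 : ℤ)⟧' ≫ o.m₁⟦(1 : ℤ)⟧' = 0 := by
                rw [hκ]
                exact comp_distTriang_mor_zero₃₁ _ o.mem
              have h5 : κ ≫ o.m₁ = 0 := by
                apply (shiftFunctor D (1 : ℤ)).map_injective
                rw [Functor.map_comp, h4, Functor.map_zero]
              rw [← cancel_mono g, Category.assoc, ← hg, ← Category.assoc, h5, zero_comp, zero_comp]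
          · rw [hg, hS.hom_ne l j hjl g, comp_zero]
      obtain ⟨w, hw⟩ := Triangle.yoneda_exact₂ _ o.mem f hm0
      rw [hw, hK0 w]
      exact comp_zero
    apply hφ0
    rw [← o.comm₁, hI0.eq_of_tgt o.m₁ 0, zero_comp]

/-- `Hom(X, Y i)` for `X` an iterated extension of copies of `S i`, degrees `0` and `3` -/
theorem hd_filt_self (hY : YD k S Y) (hC : CY3 k D) {X : D} (hX : Filt (isoTo (S i)) X) :
    hd k X (Y i) 0 = hd k X (Y i) 3 := by
  induction hX with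
  | zero X hX =>
    have h1 : ∀ m : ℤ, hd k X (Y i) m = 0 := fun m => (hz_iff_hd (k := k) hC.fin X (Y i) m).1 (hz_zero₁ hX)
    rw [h1, h1]
  | ext A X B f g q hT hA hB ih =>
    obtain ⟨e⟩ := hB
    have hAz : ∀ m : ℤ, m ≠ 0 → m ≠ 3 → HZ A (Y i) m := fun m h0 h3 =>
      hz_filt₁ hA (fun Z ⟨e'⟩ => (hY.hz' hC (Or.inr ⟨h0, h3⟩)).of_iso₁ e'.symm)
    have hBz : ∀ m : ℤ, m ≠ 0 → m ≠ 3 → HZ B (Y i) m := fun m h0 h3 =>
      (hY.hz' hC (Or.inr ⟨h0, h3⟩)).of_iso₁ e.symm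
    have hB1 : hd k B (Y i) 0 = hd k B (Y i) 3 := by
      rw [hd_congr_left (k := k) e, hd_congr_left (k := k) e, hC.hd_cy (S i) (Y i) 0, hC.hd_cy (S i) (Y i) 3]
      have h0 := hY.one i 0 (Or.inl rfl)
      have h3 := hY.one i 3 (Or.inr rfl)
      change hd k (Y i) (S i) 0 = 1 at h0
      change hd k (Y i) (S i) 3 = 1 at h3
      rw [show (3 : ℤ) - 0 = 3 by norm_num, show (3 : ℤ) - 3 = 0 by norm_num, h0, h3]
    rw [hd_add (k := k) hT hC.fin (hAz _ (by norm_num) (by norm_num)) (hBz _ (by norm_num) (by norm_num)),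
      hd_add (k := k) hT hC.fin (hAz _ (by norm_num) (by norm_num)) (hBz _ (by norm_num) (by norm_num)), ih, hB1]

/-- `Hom(Y i, S' l⟦m⟧)`, degrees `0` and `3` -/
theorem hd_mut_self (hY : YD k S Y) (hC : CY3 k D) (hS : IsSMC S) (h : MutData S S' i) {l : ι} (hl : l ≠ i) :
    hd k (Y i) (S' l) 3 = hd k (Y i) (S' l) 0 := by
  obtain ⟨E', a', p, c', hT', hE'⟩ := h.tri l hl
  have hz : ∀ m : ℤ, HZ (S l) (Y i) m := fun m => hY.hz' hC (Or.inl (Ne.symm hl))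
  rw [hC.hd_cy (Y i) (S' l) 3, hC.hd_cy (Y i) (S' l) 0, show (3 : ℤ) - 0 = 3 by norm_num,
    show (3 : ℤ) - 3 = 0 by norm_num, hd_eq_BA (k := k) hT' hC.fin (hz _) (hz _),
    hd_eq_BA (k := k) hT' hC.fin (hz _) (hz _)]
  exact hd_filt_self hY hC hE'

/-- `Hom(E, S' l⟦m⟧)`, degrees `0` and `3` -/
theorem hd_filtY (hY : YD k S Y) (hC : CY3 k D) (h : MutData S S' i) {l : ι} (hl : l ≠ i) {E : D}
    (hE : Filt (fun W => ∃ j, j ≠ i ∧ Nonempty (W ≅ Y j)) E) : hd k E (S' l) 3 = hd k E (S' l) 0 := by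
  induction hE with
  | zero X hX =>
    have h1 : ∀ m : ℤ, hd k X (S' l) m = 0 := fun m => (hz_iff_hd (k := k) hC.fin X (S' l) m).1 (hz_zero₁ hX)
    rw [h1, h1]
  | ext A X B f g q hT hA hB ih =>
    obtain ⟨j, hj, ⟨e⟩⟩ := hB
    have hAz : ∀ m : ℤ, m ≠ 0 → m ≠ 3 → HZ A (S' l) m := fun m h0 h3 =>
      filtY_hz hA (fun j' hj' => hY.hz_mut hC h hj' (Or.inr ⟨h0, h3⟩))
    have hBz : ∀ m : ℤ, m ≠ 0 → m ≠ 3 → HZ B (S' l) m := fun m h0 h3 =>
      (hY.hz_mut hC h hj (Or.inr ⟨h0, h3⟩)).of_iso₁ e.symm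
    have hB1 : hd k B (S' l) 3 = hd k B (S' l) 0 := by
      rw [hd_congr_left (k := k) e, hd_congr_left (k := k) e]
      by_cases hjl : j = l
      · subst hjl
        rw [hY.hd_mut_one hC h hj (Or.inr rfl), hY.hd_mut_one hC h hj (Or.inl rfl)]
      · rw [(hz_iff_hd (k := k) hC.fin _ _ _).1 (hY.hz_mut hC h hj (m := 3) (Or.inl hjl)),
          (hz_iff_hd (k := k) hC.fin _ _ _).1 (hY.hz_mut hC h hj (m := 0) (Or.inl hjl))]
    rw [hd_add (k := k) hT hC.fin (hAz _ (by norm_num) (by norm_num)) (hBz _ (by norm_num) (by norm_num)),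
      hd_add (k := k) hT hC.fin (hAz _ (by norm_num) (by norm_num)) (hBz _ (by norm_num) (by norm_num)), ih, hB1]

/-- `Hom(V, S' l⟦m⟧) = 0` for `l ≠ i` -/
theorem FData.hz_ne (hF : FData Y S' i a b δ) (hY : YD k S Y) (hC : CY3 k D) (hS : IsSMC S) (h : MutData S S' i)
    {l : ι} (hl : l ≠ i) (m : ℤ) : HZ V (S' l) m := by
  have hrot := rot_of_distTriang _ hF.dist
  have hSl := h.heart_ne hS hl
  have hYz : ∀ p : ℤ, p ≠ 0 → p ≠ 3 → HZ (Y i) (S' l) p := fun p h0 h3 => hY.hz_heart hC hS hSl h0 h3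
  -- generic degrees
  have gen : ∀ p : ℤ, p ≠ 0 → p ≠ 3 → p ≠ 1 → p ≠ 4 → HZ V (S' l) p := by
    intro p h0 h3 h1 h4
    exact hz₃ hF.dist (hYz (p - 1) (by omega) (by omega)) (hF.hzE hY hC h (Or.inr ⟨h0, h3⟩))
  have h4 : HZ V (S' l) 4 := by
    refine hC.hz (m := -1) (by norm_num) (fun u => ?_)
    -- `u : S' l ⟶ V⟦-1⟧`
    have hT1 := inv_rot_of_distTriang _ hF.dist
    obtain ⟨q, q', hT2⟩ : ∃ (q : V⟦(-1 : ℤ)⟧ ⟶ Y i) (q' : E ⟶ (V⟦(-1 : ℤ)⟧)⟦(1 : ℤ)⟧), Triangle.mk q a q' ∈ distTriang D :=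
      ⟨_, _, hT1⟩
    have hqa : q ≫ a = 0 := comp_distTriang_mor_zero₁₂ _ hT2
    have hφ : u ≫ q = 0 := hF.inj hY hC hS h hl (u ≫ q) (by rw [Category.assoc, hqa, comp_zero])
    obtain ⟨w, hw⟩ := Triangle.coyoneda_exact₂ _ (inv_rot_of_distTriang _ hT2) u hφ
    have hEz : HZ (S' l) E (-1) := filtY_hz' hF.filt (fun j hj =>
      hY.hz_heart' hC hS hSl (by norm_num) (by norm_num))
    rw [hw, hEz w]
    exact zero_comp
  by_cases hm0 : m = 0
  · subst hm0; exact hF.v0 l hl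
  by_cases hm1 : m = 1
  · subst hm1; exact hF.v1 l hl
  by_cases hm4 : m = 4
  · subst hm4; exact h4
  by_cases hm3 : m = 3
  · subst hm3
    rw [hz_iff_hd (k := k) hC.fin]
    have e3 := hd_add (k := k) hF.dist hC.fin (hYz (3 - 1) (by norm_num) (by norm_num)) (m := 3) h4
    have e0 := hd_add (k := k) hF.dist hC.fin (hYz (0 - 1) (by norm_num) (by norm_num)) (m := 0)
      (hF.v1 l hl)
    have ev0 : hd k V (S' l) 0 = 0 := (hz_iff_hd (k := k) hC.fin _ _ _).1 (hF.v0 l hl)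
    have e1 := hd_filtY hY hC h hl hF.filt
    have e2 := hd_mut_self hY hC hS h hl
    omega
  · exact gen m hm0 hm3 hm1 hm4

end

end EGr
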