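import Pool.Agent.Lib_MP_a23b08_n2.YDefs

/-!
# N2-YUniv: existence of the universal map `ι : Y i ⟶ E`

We extend `Z = (Y i)⟦1⟧` by objects `Y l`, `l ≠ i`, killing `Hom(Z, S' l⟦1⟧)` one vector at a time.
-/

set_option backward.defeqAttrib.useBackward true
set_option backward.isDefEq.respectTransparency false
set_option linter.unusedSectionVars false
set_option linter.unusedVariables false

open CategoryTheory CategoryTheory.Limits CategoryTheory.Triangulated CategoryTheory.Pretriangulated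
open ZeroObject

universe v u

namespace EGr

variable {k : Type} [Field k] {D : Type u} [Category.{v} D] [Preadditive D] [HasZeroObject D] [HasShift D ℤ]
  [∀ n : ℤ, (shiftFunctor D n).Additive] [Pretriangulated D] [IsTriangulated D] [Linear k D] {ι : Type}
  {S S' Y : ι → D} {i : ι}

/-- the cover `Y l ⟶ S' l` -/
theorem YD.cover (hY : YD k S Y) (hC : CY3 k D) (hS : IsSMC S) (h : MutData S S' i) {l : ι} (hl : l ≠ i) :
    ∃ π : Y l ⟶ S' l, π ≠ 0 ∧ EpiH hS.tstr π := by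
  obtain ⟨π, hπ⟩ := exists_ne_zero_of_hd0 (k := k) (X := Y l) (Z := S' l) (by
    rw [hY.hd_mut_one hC h hl (Or.inl rfl)]; exact one_ne_zero)
  refine ⟨π, hπ, ?_⟩
  obtain ⟨E, a, b, c, hT, hE⟩ := h.tri l hl
  refine epiH_of hS.slist (hY.mem_heart hC hS l) (h.heart_ne hS hl) π (fun j g hg => ?_)
  by_cases hj : j = i
  · subst hj
    exact h.hom0 l hl g
  · obtain ⟨g', hg'⟩ := h.lift hS hj hT hE g
    by_cases hjl : l = j
    · subst hjl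
      rcases hS.zero_or_iso l g' with h0 | h1
      · rw [hg', h0, comp_zero]
      · exfalso
        apply hπ
        have h2 : π ≫ b = 0 := by
          rw [← cancel_mono g', Category.assoc, ← hg', hg, zero_comp]
        obtain ⟨w, hw⟩ := Triangle.coyoneda_exact₂ _ hT π h2
        have hw0 : w = 0 := hom_filt_isoTo hE (fun f => (hY.hz hC (m := 0) (Or.inl hl)).zero f) w
        rw [hw, hw0]
        exact zero_comp
    · rw [hg', hS.hom_ne l j hjl g', comp_zero]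

/-- lifting a map `Z ⟶ S' l⟦1⟧` -/
theorem lift_one {t : TStructure D} {A B : D} {π : A ⟶ B} (hA : t.heart A) (hB : t.heart B) (hπ : EpiH t π) {Z : D}
    (hZ : ∀ X : D, t.heart X → HZ Z X 2) (f : Z ⟶ B⟦(1 : ℤ)⟧) : ∃ g : Z ⟶ A⟦(1 : ℤ)⟧, g ≫ π⟦(1 : ℤ)⟧' = f := by
  obtain ⟨N, κ, δ, hT⟩ := distinguished_cocone_triangle₁ π
  have hN : t.heart N := hπ.fibre hT hA hB
  obtain ⟨g, hg⟩ := Triangle.coyoneda_exact₃ _ (Triangle.shift_distinguished _ hT 1) f (by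
    have h1 : HZ Z (N⟦(1 : ℤ)⟧) 1 := (hZ N hN).shift₂ (by norm_num)
    have h2 : f ≫ δ⟦(1 : ℤ)⟧' = 0 := h1 _
    simp [h2])
  refine ⟨-g, ?_⟩
  simp at hg
  rw [hg]
  simp

/-- multiples of a map become isomorphism multiples after the shift -/
theorem exists_iso_of_smul {A B : D} {π w : A ⟶ B} {c : k} (hc : c ≠ 0) (hw : w = c • π) :
    ∃ e : B⟦(1 : ℤ)⟧ ≅ B⟦(1 : ℤ)⟧, w⟦(1 : ℤ)⟧' = π⟦(1 : ℤ)⟧' ≫ e.hom := by
  let e0 : B ≅ B := ⟨c • 𝟙 B, c⁻¹ • 𝟙 B, by simp [smul_smul, hc], by simp [smul_smul, hc]⟩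
  refine ⟨(shiftFunctor D (1 : ℤ)).mapIso e0, ?_⟩
  have h1 : w = π ≫ e0.hom := by
    rw [hw]
    change c • π = π ≫ (c • 𝟙 B)
    simp
  rw [h1, Functor.map_comp]
  rfl

section step
variable [Fintype ι] [DecidableEq ι]

/-- one step -/
theorem yuniv_step (hY : YD k S Y) (hC : CY3 k D) (hS : IsSMC S) (h : MutData S S' i) {l : ι} (hl : l ≠ i)
    {π : Y l ⟶ S' l} (hπ : π ≠ 0) {Z : D} {f : Z ⟶ (S' l)⟦(1 : ℤ)⟧} (hf : f ≠ 0) {g : Z ⟶ (Y l)⟦(1 : ℤ)⟧}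
    (hg : g ≫ π⟦(1 : ℤ)⟧' = f) (hZ0 : ∀ j, j ≠ i → HZ Z (S' j) 0) (hZ2 : ∀ X, hS.tstr.heart X → HZ Z X 2)
    {W : D} {b : W ⟶ Z} {d : (Y l)⟦(1 : ℤ)⟧ ⟶ W⟦(1 : ℤ)⟧} (hT : Triangle.mk b g d ∈ distTriang D) :
    (∀ j, j ≠ i → HZ W (S' j) 0) ∧ (∀ X, hS.tstr.heart X → HZ W X 2) ∧
      (∀ j, j ≠ i → j ≠ l → hd k W (S' j) 1 = hd k Z (S' j) 1) ∧ hd k W (S' l) 1 + 1 = hd k Z (S' l) 1 := by
  -- `(Y l)⟦1⟧⟦-1⟧ ⟶ W ⟶ Z`
  have hT' := inv_rot_of_distTriang _ hT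
  let eY : Y l ≅ ((Y l)⟦(1 : ℤ)⟧)⟦(-1 : ℤ)⟧ := (shiftEquiv D (1 : ℤ)).unitIso.app (Y l)
  -- maps `w : Y l⟦1⟧ ⟶ S' l⟦1⟧` with `g ≫ w = 0` are zero
  have key : ∀ w : (Y l)⟦(1 : ℤ)⟧ ⟶ (S' l)⟦(1 : ℤ)⟧, g ≫ w = 0 → w = 0 := by
    intro w hw
    obtain ⟨w', rfl⟩ := (shiftFunctor D (1 : ℤ)).map_surjective w
    obtain ⟨c, hc⟩ := exists_smul_of_hd0 (k := k) (hY.hd_mut_one hC h hl (Or.inl rfl)) hπ w'
    by_cases hc0 : c = 0
    · rw [hc, hc0, zero_smul, Functor.map_zero]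
    · exfalso
      obtain ⟨e, he⟩ := exists_iso_of_smul hc0 hc
      change g ≫ w'⟦(1 : ℤ)⟧' = 0 at hw
      rw [he, ← Category.assoc, hg] at hw
      apply hf
      rw [← cancel_mono e.hom, hw, zero_comp]
  have hYz : ∀ j, j ≠ i → ∀ m : ℤ, (l ≠ j ∨ (m ≠ 0 ∧ m ≠ 3)) → HZ (((Y l)⟦(1 : ℤ)⟧)⟦(-1 : ℤ)⟧) (S' j) m :=
    fun j hj m hm => (hY.hz_mut hC h hl hm).of_iso₁ eY
  refine ⟨fun j hj => ?_, fun X hX => ?_, fun j hj hjl => ?_, ?_⟩
  · by_cases hjl : l = j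
    · subst hjl
      refine HZ.of_zero (fun u => ?_)
      have h1 : d ≫ u⟦(1 : ℤ)⟧' = 0 := by
        refine key _ ?_
        have h2 : g ≫ d = 0 := comp_distTriang_mor_zero₂₃ _ hT
        rw [← Category.assoc, h2, zero_comp]
      obtain ⟨s, hs⟩ := Triangle.yoneda_exact₂ _ (rot_of_distTriang _ (rot_of_distTriang _ hT)) (u⟦(1 : ℤ)⟧') h1
      have h5 : s = 0 := shift_hom_zero' (fun q => (hZ0 l hj).zero q) s
      apply (shiftFunctor D (1 : ℤ)).map_injective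
      rw [hs, h5, Functor.map_zero]
      exact comp_zero
    · exact hz₂ hT' (hYz j hj 0 (Or.inl hjl)) (hZ0 j hj)
  · exact hz₂ hT' ((hY.hz_heart hC hS hX (by norm_num) (by norm_num)).of_iso₁ eY) (hZ2 X hX)
  · exact hd_eq_CB (k := k) hT' hC.fin (hYz j hj _ (Or.inl (Ne.symm hjl))) (hYz j hj _ (Or.inl (Ne.symm hjl)))
  · have := hC.fin W ((S' l)⟦(1 : ℤ)⟧)
    have := hC.fin Z ((S' l)⟦(1 : ℤ)⟧)
    have := hC.fin ((Y l)⟦(1 : ℤ)⟧) ((S' l)⟦(1 : ℤ)⟧)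
    let L : (Z ⟶ (S' l)⟦(1 : ℤ)⟧) →ₗ[k] (W ⟶ (S' l)⟦(1 : ℤ)⟧) := Linear.leftComp k _ b
    let L' : ((Y l)⟦(1 : ℤ)⟧ ⟶ (S' l)⟦(1 : ℤ)⟧) →ₗ[k] (Z ⟶ (S' l)⟦(1 : ℤ)⟧) := Linear.leftComp k _ g
    have hL : Function.Surjective L := fun u => by
      obtain ⟨v, hv⟩ := Triangle.yoneda_exact₂ _ hT' u ((hYz l hl 1 (Or.inr ⟨by norm_num, by norm_num⟩)) _)
      exact ⟨v, hv.symm⟩
    have hL' : Function.Injective L' := by
      rw [injective_iff_map_eq_zero]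
      exact key
    have hker : LinearMap.ker L = LinearMap.range L' := by
      ext u
      rw [LinearMap.mem_ker, LinearMap.mem_range]
      constructor
      · intro hu
        obtain ⟨v, hv⟩ := Triangle.yoneda_exact₂ _ hT u hu
        exact ⟨v, hv.symm⟩
      · rintro ⟨v, rfl⟩
        have h0 : b ≫ g = 0 := comp_distTriang_mor_zero₁₂ _ hT
        change b ≫ (g ≫ v) = 0
        rw [← Category.assoc, h0, zero_comp]
    have hdim := LinearMap.finrank_range_add_finrank_ker L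
    rw [LinearMap.range_eq_top.2 hL, finrank_top, hker, LinearMap.finrank_range_of_inj hL'] at hdim
    have h1 : Module.finrank k ((Y l)⟦(1 : ℤ)⟧ ⟶ (S' l)⟦(1 : ℤ)⟧) = 1 := by
      have := hC.hd_shift_left (Y l) (S' l) 1 1 0 (by ring)
      rw [hY.hd_mut_one hC h hl (Or.inl rfl)] at this
      exact this
    rw [h1] at hdim
    exact hdim

/-- the iteration -/
theorem yuniv (hY : YD k S Y) (hC : CY3 k D) (hS : IsSMC S) (h : MutData S S' i) (N : ℕ) :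
    ∀ Z : D, (∀ j, j ≠ i → HZ Z (S' j) 0) → (∀ X, hS.tstr.heart X → HZ Z X 2) →
      (∑ j ∈ Finset.univ.filter (fun j => j ≠ i), hd k Z (S' j) 1) = N →
      ∃ (E V : D) (a : E ⟶ V) (b : V ⟶ Z) (c : Z ⟶ E⟦(1 : ℤ)⟧), Triangle.mk a b c ∈ distTriang D ∧
        Filt (fun W => ∃ j, j ≠ i ∧ Nonempty (W ≅ Y j)) E ∧ (∀ j, j ≠ i → HZ V (S' j) 0) ∧
        ∀ j, j ≠ i → HZ V (S' j) 1 := by
  induction N with
  | zero =>
    intro Z hZ0 hZ2 hN
    refine ⟨(0 : D)⟦(-1 : ℤ)⟧, Z, _, _, _, inv_rot_of_distTriang _ (contractible_distinguished Z), ?_, hZ0,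
      fun j hj => ?_⟩
    · exact Filt.zero _ ((shiftFunctor D (-1 : ℤ)).map_isZero (isZero_zero D))
    · rw [hz_iff_hd (k := k) hC.fin]
      exact Finset.sum_eq_zero_iff.1 hN j (by simp [hj])
  | succ N ih =>
    intro Z hZ0 hZ2 hN
    have hex : ∃ l, l ≠ i ∧ hd k Z (S' l) 1 ≠ 0 := by
      by_contra hcon
      push Not at hcon
      rw [Finset.sum_eq_zero (fun j hj => hcon j (by simpa using hj))] at hN
      omega
    obtain ⟨l, hl, hl1⟩ := hex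
    obtain ⟨f, hf⟩ := exists_ne_zero_of_hd hl1
    obtain ⟨π, hπ, hπe⟩ := hY.cover hC hS h hl
    obtain ⟨g, hg⟩ := lift_one (hY.mem_heart hC hS l) (h.heart_ne hS hl) hπe hZ2 f
    obtain ⟨W, b, d, hT⟩ := distinguished_cocone_triangle₁ g
    obtain ⟨h1, h2, h3, h4⟩ := yuniv_step hY hC hS h hl hπ hf hg hZ0 hZ2 hT
    have hsum : (∑ j ∈ Finset.univ.filter (fun j => j ≠ i), hd k W (S' j) 1) = N := by
      have hmem : l ∈ Finset.univ.filter (fun j => j ≠ i) := by simp [hl]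
      rw [← Finset.add_sum_erase _ _ hmem] at hN ⊢
      have h5 : ∑ j ∈ (Finset.univ.filter (fun j => j ≠ i)).erase l, hd k W (S' j) 1 =
          ∑ j ∈ (Finset.univ.filter (fun j => j ≠ i)).erase l, hd k Z (S' j) 1 := by
        refine Finset.sum_congr rfl (fun j hj => ?_)
        rw [Finset.mem_erase, Finset.mem_filter] at hj
        exact h3 j hj.2.2 hj.1
      omega
    obtain ⟨E, V, a', b', c', hT', hE, hV0, hV1⟩ := ih W h1 h2 hsum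
    obtain ⟨F, a'', c'', hT''⟩ := distinguished_cocone_triangle₁ (b' ≫ b)
    let o := someOctahedron' rfl hT' (inv_rot_of_distTriang _ hT) hT''
    refine ⟨F, V, a'', b' ≫ b, c'', hT'', ?_, hV0, hV1⟩
    refine Filt.ext _ _ _ _ _ _ o.mem hE ?_
    exact ⟨l, hl, ⟨((shiftEquiv D (1 : ℤ)).unitIso.app (Y l)).symm⟩⟩

end step

end EGr
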